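import Mathlib

/-! The binary decomposition of Rademacher and Menshov. -/

set_option autoImplicit false

namespace Pool.Agent.P8H18.AA

open Finset

/-- the square sum of the blocks of level `j` -/
noncomputable def blk (S : ℕ → ℝ) (J j : ℕ) : ℝ :=
  ∑ k ∈ range (2 ^ (J - j)), (S ((k + 1) * 2 ^ j) - S (k * 2 ^ j)) ^ 2

theorem blk_nonneg (S : ℕ → ℝ) (J j : ℕ) : 0 ≤ blk S J j := sum_nonneg fun _ _ => sq_nonneg _

theorem rm_sqrt (J : ℕ) : ∀ (S : ℕ → ℝ), S 0 = 0 → ∀ M ≤ 2 ^ J,
    |S M| ≤ ∑ j ∈ range (J + 1), Real.sqrt (blk S J j) := by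
  induction J with
  | zero =>
    intro S h0 M hM
    have hb : blk S 0 0 = (S 1) ^ 2 := by
      unfold blk
      simp [h0]
    simp only [zero_add, range_one, sum_singleton]
    rw [hb, Real.sqrt_sq_eq_abs]
    rw [pow_zero] at hM
    interval_cases M
    · rw [h0, abs_zero]
      exact abs_nonneg _
    · exact le_rfl
  | succ J ih =>
    intro S h0 M hM
    set S' : ℕ → ℝ := fun m => S (2 * m) with hS'
    have hb : ∀ j ∈ range (J + 1), blk S' J j = blk S (J + 1) (j + 1) := by
      intro j _
      unfold blk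
      rw [Nat.add_sub_add_right]
      refine sum_congr rfl fun k _ => ?_
      rw [hS']
      have e1 : 2 * ((k + 1) * 2 ^ j) = (k + 1) * 2 ^ (j + 1) := by ring
      have e2 : 2 * (k * 2 ^ j) = k * 2 ^ (j + 1) := by ring
      simp only [e1, e2]
    have hih := ih S' (by rw [hS']; exact h0)
    rw [sum_range_succ']
    rw [sum_congr rfl fun j hj => by rw [← hb j hj]]
    rcases Nat.even_or_odd' M with ⟨M', h | h⟩
    · have hM' : M' ≤ 2 ^ J := by
        rw [pow_succ] at hM
        omega
      have h1 := hih M' hM'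
      have h2 : S' M' = S M := by rw [hS', h]
      rw [h2] at h1
      have := Real.sqrt_nonneg (blk S (J + 1) 0)
      linarith
    · have hM' : M' < 2 ^ J := by
        rw [pow_succ] at hM
        omega
      have h1 := hih M' hM'.le
      have h3 : |S M - S (2 * M')| ≤ Real.sqrt (blk S (J + 1) 0) := by
        apply Real.le_sqrt_of_sq_le
        rw [sq_abs]
        unfold blk
        have h4 := single_le_sum (f := fun k => (S ((k + 1) * 2 ^ 0) - S (k * 2 ^ 0)) ^ 2)
          (s := range (2 ^ (J + 1 - 0))) (fun k _ => sq_nonneg _)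
          (a := 2 * M') (by rw [mem_range, Nat.sub_zero, pow_succ]; omega)
        simp only [pow_zero, mul_one] at h4
        rw [← h] at h4
        simpa using h4
      have h2 : S' M' = S (2 * M') := rfl
      rw [h2] at h1
      have h5 : |S M| ≤ |S (2 * M')| + |S M - S (2 * M')| := by
        have := abs_add_le (S (2 * M')) (S M - S (2 * M'))
        rwa [add_sub_cancel] at this
      linarith

/-- **Rademacher-Menshov** -/
theorem rm (J : ℕ) (S : ℕ → ℝ) (h0 : S 0 = 0) (M : ℕ) (hM : M ≤ 2 ^ J) :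
    S M ^ 2 ≤ (J + 1) * ∑ j ∈ range (J + 1), blk S J j := by
  have h1 := rm_sqrt J S h0 M hM
  have h2 : (∑ j ∈ range (J + 1), Real.sqrt (blk S J j)) ^ 2 ≤
      (J + 1) * ∑ j ∈ range (J + 1), blk S J j := by
    refine (sq_sum_le_card_mul_sum_sq (s := range (J + 1))
      (f := fun j => Real.sqrt (blk S J j))).trans (le_of_eq ?_)
    rw [card_range]
    push_cast
    congr 1
    exact sum_congr rfl fun j _ => Real.sq_sqrt (blk_nonneg _ _ _)
  rw [← sq_abs]
  exact (pow_le_pow_left₀ (abs_nonneg _) h1 2).trans h2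

end Pool.Agent.P8H18.AA
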