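import Pool.Agent.P8H18.AA.Second
import Pool.Agent.P8H18.AA.RM

/-! The number of the pairs with large sums of traces. -/

set_option autoImplicit false
set_option linter.unusedSectionVars false

namespace Pool.Agent.P8H18.AA

open Finset NumberField IsDedekindDomain Pool.Agent.P8H18.MF
open Pool.Agent.H921R2.TatePole (nm two_le_nm nm_summable below below_le_nm card_above)
open Pool.Agent.H341R2 (card_v finite_v)

variable {K : Type} [Field K] [NumberField K] {ι : Type} [Fintype ι] [DecidableEq ι]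

theorem finite_nm (M : ℕ) : {v : HeightOneSpectrum (𝓞 K) | nm v < M}.Finite := by
  have h := Ideal.finite_setOfPred_absNorm_le (S := 𝓞 K) M
  refine Set.Finite.of_finite_image (f := fun v : HeightOneSpectrum (𝓞 K) => v.asIdeal)
    (h.subset ?_) ?_
  · rintro _ ⟨v, hv, rfl⟩
    have hv' : nm v < M := hv
    exact hv'.le
  · intro v _ w _ h
    exact HeightOneSpectrum.ext h

variable (K) in
/-- the primes not dividing `6` of norm less than `M` -/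
noncomputable def Pr (M : ℕ) : Finset (HeightOneSpectrum (𝓞 K)) := by
  classical
  exact (finite_nm (K := K) M).toFinset.filter fun v => (6 : 𝓞 K) ∉ v.asIdeal

theorem mem_Pr {M : ℕ} {v : HeightOneSpectrum (𝓞 K)} :
    v ∈ Pr K M ↔ nm v < M ∧ (6 : 𝓞 K) ∉ v.asIdeal := by
  classical
  unfold Pr
  rw [mem_filter, Set.Finite.mem_toFinset, Set.mem_ofPred_eq]

theorem Pr_mono {M M' : ℕ} (h : M ≤ M') : Pr K M ⊆ Pr K M' := fun v hv => by
  rw [mem_Pr] at hv ⊢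
  exact ⟨hv.1.trans_le h, hv.2⟩

theorem Pr_zero : Pr K 0 = ∅ := by
  ext v
  rw [mem_Pr]
  simp

theorem card_Pr (M : ℕ) : (Pr K M).card ≤ Module.finrank ℚ K * M := by
  classical
  have h := card_le_mul_card_image (f := fun v : HeightOneSpectrum (𝓞 K) => (below v : ℕ))
    (Pr K M) (Module.finrank ℚ K) (fun p hp => by
      obtain ⟨v, hv, rfl⟩ := mem_image.1 hp
      refine card_above (below v) _ fun w hw => ?_
      rw [mem_filter] at hw
      exact Subtype.ext hw.2)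
  refine h.trans (Nat.mul_le_mul_left _ ?_)
  calc ((Pr K M).image fun v : HeightOneSpectrum (𝓞 K) => (below v : ℕ)).card
      ≤ (range M).card := card_le_card fun p hp => by
        obtain ⟨v, hv, rfl⟩ := mem_image.1 hp
        rw [mem_Pr] at hv
        rw [mem_range]
        exact (below_le_nm v).trans_lt hv.1
    _ = M := card_range M

/-- the sum of the traces -/
noncomputable def TT (a b : 𝓞 K) (M : ℕ) : ℝ := ∑ v ∈ Pr K M, tv v a b

/-- the sum of the norms -/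
noncomputable def WW (K : Type) [Field K] [NumberField K] (M : ℕ) : ℝ := ∑ v ∈ Pr K M, (nm v : ℝ)

theorem TT_zero (a b : 𝓞 K) : TT a b 0 = 0 := by
  unfold TT
  rw [Pr_zero, sum_empty]

theorem WW_le (M : ℕ) : WW K M ≤ Module.finrank ℚ K * (M : ℝ) ^ 2 := by
  unfold WW
  calc ∑ v ∈ Pr K M, (nm v : ℝ) ≤ ∑ v ∈ Pr K M, (M : ℝ) := sum_le_sum fun v hv => by
        exact_mod_cast (mem_Pr.1 hv).1.le
    _ = (Pr K M).card * (M : ℝ) := by rw [sum_const, nsmul_eq_mul]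
    _ ≤ ((Module.finrank ℚ K * M : ℕ) : ℝ) * M := by
        gcongr
        exact_mod_cast card_Pr (K := K) M
    _ = _ := by push_cast; ring

variable (β : Module.Basis ι ℤ (𝓞 K))

/-- the constant of the second moment -/
noncomputable def c2 (K : Type) [Field K] [NumberField K] (ι : Type) [Fintype ι] : ℝ :=
  4 + 12 * cc ι * (32 * Module.finrank ℚ K)

theorem c2_pos : 0 < c2 K ι := by
  unfold c2
  have := cc_pos (ι := ι)
  positivity

/-- one block -/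
theorem block_le {M M' Y X : ℕ} (hMM' : M ≤ M') (hM' : M' ≤ Y) (hX : 1 ≤ X)
    (hY : cc ι * (Y : ℝ) ^ 4 ≤ X) (hY5 : Y ^ 5 ≤ 32 * X) :
    ∑ a ∈ box β X, ∑ b ∈ box β X, (TT a b M' - TT a b M) ^ 2 ≤
      c2 K ι * ((box β X).card : ℝ) ^ 2 * (WW K M' - WW K M) := by
  classical
  have hX0 : (0 : ℝ) < X := by exact_mod_cast hX
  have h1 : ∀ a b : 𝓞 K, TT a b M' - TT a b M = ∑ v ∈ Pr K M' \ Pr K M, tv v a b := by
    intro a b
    unfold TT
    rw [← sum_sdiff (Pr_mono (K := K) hMM'), add_sub_cancel_right]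
  have h2 : WW K M' - WW K M = ∑ v ∈ Pr K M' \ Pr K M, (nm v : ℝ) := by
    unfold WW
    rw [← sum_sdiff (Pr_mono (K := K) hMM'), add_sub_cancel_right]
  simp_rw [h1]
  rw [h2]
  refine second β (Pr K M' \ Pr K M) (fun v hv => (mem_Pr.1 (mem_sdiff.1 hv).1).2) hX
    (fun v hv => ((mem_Pr.1 (mem_sdiff.1 hv).1).1.le.trans hM')) hY ?_
  have h3 : ((Pr K M' \ Pr K M).card : ℝ) ≤ Module.finrank ℚ K * Y := by
    have h4 : (Pr K M' \ Pr K M).card ≤ Module.finrank ℚ K * Y :=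
      (card_le_card sdiff_subset).trans ((card_Pr (K := K) M').trans (Nat.mul_le_mul_left _ hM'))
    exact_mod_cast h4
  calc ((Pr K M' \ Pr K M).card : ℝ) * ((Y : ℝ) ^ 4 / X)
      ≤ (Module.finrank ℚ K * Y) * ((Y : ℝ) ^ 4 / X) := by gcongr
    _ = Module.finrank ℚ K * ((Y : ℝ) ^ 5 / X) := by ring
    _ ≤ Module.finrank ℚ K * 32 := by
        gcongr
        rw [div_le_iff₀ hX0]
        exact_mod_cast hY5
    _ = 32 * Module.finrank ℚ K := by ring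

/-- all blocks of one level -/
theorem level_le {J j X : ℕ} (hj : j ≤ J) (hX : 1 ≤ X) (hY : cc ι * ((2 ^ J : ℕ) : ℝ) ^ 4 ≤ X)
    (hY5 : (2 ^ J) ^ 5 ≤ 32 * X) :
    ∑ a ∈ box β X, ∑ b ∈ box β X, blk (TT a b) J j ≤
      c2 K ι * ((box β X).card : ℝ) ^ 2 * (Module.finrank ℚ K * ((2 ^ J : ℕ) : ℝ) ^ 2) := by
  classical
  have hpow : 2 ^ (J - j) * 2 ^ j = 2 ^ J := by rw [← pow_add, Nat.sub_add_cancel hj]
  have e1 : ∑ a ∈ box β X, ∑ b ∈ box β X, blk (TT a b) J j =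
      ∑ k ∈ range (2 ^ (J - j)), ∑ a ∈ box β X, ∑ b ∈ box β X,
        (TT a b ((k + 1) * 2 ^ j) - TT a b (k * 2 ^ j)) ^ 2 := by
    unfold blk
    calc _ = ∑ a ∈ box β X, ∑ k ∈ range (2 ^ (J - j)), ∑ b ∈ box β X,
        (TT a b ((k + 1) * 2 ^ j) - TT a b (k * 2 ^ j)) ^ 2 :=
          sum_congr rfl fun a _ => sum_comm
      _ = _ := sum_comm
  rw [e1]
  have h1 : ∀ k ∈ range (2 ^ (J - j)), ∑ a ∈ box β X, ∑ b ∈ box β X,
        (TT a b ((k + 1) * 2 ^ j) - TT a b (k * 2 ^ j)) ^ 2 ≤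
      c2 K ι * ((box β X).card : ℝ) ^ 2 * (WW K ((k + 1) * 2 ^ j) - WW K (k * 2 ^ j)) := by
    intro k hk
    rw [mem_range] at hk
    refine block_le β (Nat.mul_le_mul_right _ (Nat.le_succ k)) ?_ hX hY hY5
    rw [← hpow]
    exact Nat.mul_le_mul_right _ hk
  refine (sum_le_sum h1).trans ?_
  rw [← mul_sum]
  have h2 : ∑ k ∈ range (2 ^ (J - j)), (WW K ((k + 1) * 2 ^ j) - WW K (k * 2 ^ j)) = WW K (2 ^ J) := by
    rw [sum_range_sub (fun k => WW K (k * 2 ^ j)), hpow, zero_mul]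
    have : WW K 0 = 0 := by
      unfold WW
      rw [Pr_zero, sum_empty]
    rw [this, sub_zero]
  rw [h2]
  have := c2_pos (K := K) (ι := ι)
  refine mul_le_mul_of_nonneg_left ?_ (by positivity)
  exact WW_le (2 ^ J)

open Classical in
/-- **the exceptional pairs of one scale** -/
theorem bad_le {J X : ℕ} (hX : 1 ≤ X) (hY : cc ι * ((2 ^ J : ℕ) : ℝ) ^ 4 ≤ X)
    (hY5 : (2 ^ J) ^ 5 ≤ 32 * X) {L : ℝ} (hL : 0 < L) :
    ((((box β X) ×ˢ (box β X)).filter fun p => ∃ M ≤ 2 ^ J,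
      L * 2 ^ J * ((J : ℝ) + 1) ^ 2 < |TT p.1 p.2 M|).card : ℝ) ≤
      c2 K ι * Module.finrank ℚ K / L ^ 2 * (1 / ((J : ℝ) + 1) ^ 2) * ((box β X).card : ℝ) ^ 2 := by
  set Bd := ((box β X) ×ˢ (box β X)).filter fun p => ∃ M ≤ 2 ^ J,
      L * 2 ^ J * ((J : ℝ) + 1) ^ 2 < |TT p.1 p.2 M| with hBd
  set Q : 𝓞 K → 𝓞 K → ℝ := fun a b => ((J : ℝ) + 1) * ∑ j ∈ range (J + 1), blk (TT a b) J j with hQ
  have hQ0 : ∀ a b, 0 ≤ Q a b := fun a b =>
    mul_nonneg (by positivity) (sum_nonneg fun j _ => blk_nonneg _ _ _)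
  have h1 : ∀ p ∈ Bd, (L * 2 ^ J * ((J : ℝ) + 1) ^ 2) ^ 2 ≤ Q p.1 p.2 := by
    intro p hp
    rw [hBd, mem_filter] at hp
    obtain ⟨_, M, hM, hlt⟩ := hp
    have h2 := rm J (TT p.1 p.2) (TT_zero _ _) M hM
    rw [← sq_abs] at h2
    exact (pow_le_pow_left₀ (by positivity) hlt.le 2).trans h2
  have h2 : (Bd.card : ℝ) * (L * 2 ^ J * ((J : ℝ) + 1) ^ 2) ^ 2 ≤
      ∑ a ∈ box β X, ∑ b ∈ box β X, Q a b := by
    rw [← nsmul_eq_mul]
    refine (card_nsmul_le_sum Bd (fun p => Q p.1 p.2) _ h1).trans ?_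
    rw [← sum_product' (f := fun a b => Q a b)]
    exact sum_le_sum_of_subset_of_nonneg (filter_subset _ _) fun p _ _ => hQ0 _ _
  have h3 : ∑ a ∈ box β X, ∑ b ∈ box β X, Q a b ≤ ((J : ℝ) + 1) ^ 2 *
      (c2 K ι * ((box β X).card : ℝ) ^ 2 * (Module.finrank ℚ K * ((2 ^ J : ℕ) : ℝ) ^ 2)) := by
    have e1 : ∑ a ∈ box β X, ∑ b ∈ box β X, Q a b = ((J : ℝ) + 1) * ∑ j ∈ range (J + 1),
        ∑ a ∈ box β X, ∑ b ∈ box β X, blk (TT a b) J j := by
      rw [hQ]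
      simp_rw [← mul_sum]
      congr 1
      calc _ = ∑ a ∈ box β X, ∑ j ∈ range (J + 1), ∑ b ∈ box β X, blk (TT a b) J j :=
            sum_congr rfl fun a _ => sum_comm
        _ = _ := sum_comm
    rw [e1]
    have e2 := sum_le_sum fun j hj => level_le (K := K) β (j := j)
      (Nat.lt_succ_iff.1 (mem_range.1 hj) : j ≤ J) hX hY hY5
    refine (mul_le_mul_of_nonneg_left e2 (by positivity)).trans (le_of_eq ?_)
    rw [sum_const, card_range, nsmul_eq_mul]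
    push_cast
    ring
  have hpos : (0 : ℝ) < (L * 2 ^ J * ((J : ℝ) + 1) ^ 2) ^ 2 := by positivity
  have h4 := h2.trans h3
  rw [← le_div_iff₀ hpos] at h4
  refine h4.trans (le_of_eq ?_)
  push_cast
  field_simp

theorem sum_inv_sq (N : ℕ) : ∑ J ∈ range N, 1 / ((J : ℝ) + 1) ^ 2 ≤ 2 := by
  have h : ∀ N : ℕ, 1 ≤ N → ∑ J ∈ range N, 1 / ((J : ℝ) + 1) ^ 2 ≤ 2 - 1 / (N : ℝ) := by
    intro N hN
    induction N, hN using Nat.le_induction with
    | base => norm_num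
    | succ n hn ih =>
      rw [sum_range_succ]
      have hn0 : (0 : ℝ) < n := by exact_mod_cast hn
      have h1 : 1 / ((n : ℝ) + 1) ^ 2 ≤ 1 / (n : ℝ) - 1 / ((n : ℝ) + 1) := by
        rw [div_sub_div _ _ hn0.ne' (by positivity), div_le_div_iff₀ (by positivity) (by positivity)]
        nlinarith
      push_cast
      linarith
  rcases Nat.eq_zero_or_pos N with rfl | hN
  · simp
  · have := h N hN
    have h2 : (0 : ℝ) ≤ 1 / (N : ℝ) := by positivity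
    linarith

/-- the threshold -/
noncomputable def X₀ (ι : Type) [Fintype ι] : ℕ := ⌈cc ι * (32 * cc ι) ^ 4⌉₊ + 1

theorem threshold {Y X : ℕ} (hX : X₀ ι ≤ X) (hY5 : Y ^ 5 ≤ 32 * X) :
    cc ι * (Y : ℝ) ^ 4 ≤ X := by
  have hcc := cc_pos (ι := ι)
  have hXr : cc ι * (32 * cc ι) ^ 4 ≤ X := by
    have h1 : (X₀ ι : ℝ) ≤ X := by exact_mod_cast hX
    have h2 := Nat.le_ceil (cc ι * (32 * cc ι) ^ 4)
    unfold X₀ at h1
    push_cast at h1
    linarith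
  by_cases h : 32 * cc ι ≤ Y
  · have h5 : (Y : ℝ) ^ 5 ≤ 32 * X := by exact_mod_cast hY5
    have h6 : (32 * cc ι) * (Y : ℝ) ^ 4 ≤ 32 * X := by
      calc (32 * cc ι) * (Y : ℝ) ^ 4 ≤ Y * (Y : ℝ) ^ 4 := by gcongr
        _ = (Y : ℝ) ^ 5 := by ring
        _ ≤ 32 * X := h5
    linarith
  · push Not at h
    refine le_trans ?_ hXr
    gcongr

open Classical in
/-- **the exceptional pairs** -/
theorem bad_total {X : ℕ} (hX : X₀ ι ≤ X) {L : ℝ} (hL : 0 < L) :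
    ((((box β X) ×ˢ (box β X)).filter fun p => ∃ J M : ℕ, (2 ^ J) ^ 5 ≤ 32 * X ∧ M ≤ 2 ^ J ∧
      L * 2 ^ J * ((J : ℝ) + 1) ^ 2 < |TT p.1 p.2 M|).card : ℝ) ≤
      2 * c2 K ι * Module.finrank ℚ K / L ^ 2 * ((box β X).card : ℝ) ^ 2 := by
  have hX1 : 1 ≤ X := by
    unfold X₀ at hX
    omega
  set R := (range (32 * X + 1)).filter fun J : ℕ => (2 ^ J) ^ 5 ≤ 32 * X with hR
  have hsub : (((box β X) ×ˢ (box β X)).filter fun p => ∃ J M : ℕ, (2 ^ J) ^ 5 ≤ 32 * X ∧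
      M ≤ 2 ^ J ∧ L * 2 ^ J * ((J : ℝ) + 1) ^ 2 < |TT p.1 p.2 M|) ⊆
      R.biUnion fun J => ((box β X) ×ˢ (box β X)).filter fun p => ∃ M ≤ 2 ^ J,
        L * 2 ^ J * ((J : ℝ) + 1) ^ 2 < |TT p.1 p.2 M| := by
    intro p hp
    rw [mem_filter] at hp
    obtain ⟨hp1, J, M, h5, hM, hlt⟩ := hp
    rw [mem_biUnion]
    refine ⟨J, ?_, ?_⟩
    · rw [hR, mem_filter, mem_range]
      refine ⟨?_, h5⟩
      have h6 : J < 2 ^ J := Nat.lt_two_pow_self
      have h7 : 2 ^ J ≤ (2 ^ J) ^ 5 := Nat.le_self_pow (by norm_num) _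
      omega
    · rw [mem_filter]
      exact ⟨hp1, M, hM, hlt⟩
  have h1 : ∀ J ∈ R, ((((box β X) ×ˢ (box β X)).filter fun p => ∃ M ≤ 2 ^ J,
        L * 2 ^ J * ((J : ℝ) + 1) ^ 2 < |TT p.1 p.2 M|).card : ℝ) ≤
      c2 K ι * Module.finrank ℚ K / L ^ 2 * (1 / ((J : ℝ) + 1) ^ 2) *
        ((box β X).card : ℝ) ^ 2 := by
    intro J hJ
    rw [hR, mem_filter] at hJ
    exact bad_le β hX1 (threshold hX hJ.2) hJ.2 hL
  have h2 : ((((box β X) ×ˢ (box β X)).filter fun p => ∃ J M : ℕ, (2 ^ J) ^ 5 ≤ 32 * X ∧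
      M ≤ 2 ^ J ∧ L * 2 ^ J * ((J : ℝ) + 1) ^ 2 < |TT p.1 p.2 M|).card : ℝ) ≤
      ∑ J ∈ R, ((((box β X) ×ˢ (box β X)).filter fun p => ∃ M ≤ 2 ^ J,
        L * 2 ^ J * ((J : ℝ) + 1) ^ 2 < |TT p.1 p.2 M|).card : ℝ) := by
    have := (card_le_card hsub).trans card_biUnion_le
    exact_mod_cast this
  refine h2.trans ((sum_le_sum h1).trans ?_)
  rw [← sum_mul, ← mul_sum]
  have h3 : ∑ J ∈ R, 1 / ((J : ℝ) + 1) ^ 2 ≤ 2 :=
    (sum_le_sum_of_subset_of_nonneg (filter_subset _ _) fun J _ _ => by positivity).trans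
      (sum_inv_sq _)
  have hc := c2_pos (K := K) (ι := ι)
  calc c2 K ι * Module.finrank ℚ K / L ^ 2 * (∑ J ∈ R, 1 / ((J : ℝ) + 1) ^ 2) *
        ((box β X).card : ℝ) ^ 2
      ≤ c2 K ι * Module.finrank ℚ K / L ^ 2 * 2 * ((box β X).card : ℝ) ^ 2 := by gcongr
    _ = _ := by ring

end Pool.Agent.P8H18.AA
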