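import Pool.Agent.P8H18.AA.Fin

/-! The L-series near the edge of absolute convergence. -/

set_option autoImplicit false
set_option linter.unusedSectionVars false

namespace Pool.Agent.P8H18.AA

open Finset Filter Topology NumberField IsDedekindDomain Pool.Agent.P8H18.MF
open Pool.Agent.H921R2.TatePole (nm two_le_nm nm_summable below below_le_nm card_above)
open Pool.Agent.H341R2 (card_v finite_v)

theorem zeta_term {δ : ℝ} (hδ : 0 < δ) {m : ℕ} (hm : 1 ≤ m) :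
    ((m + 1 : ℕ) : ℝ) ^ (-1 - δ) ≤ 1 / δ * ((m : ℝ) ^ (-δ) - ((m + 1 : ℕ) : ℝ) ^ (-δ)) := by
  have hm0 : (0 : ℝ) < m := by exact_mod_cast hm
  set t : ℝ := ((m + 1 : ℕ) : ℝ) with ht
  have ht' : t = (m : ℝ) + 1 := by rw [ht]; push_cast; ring
  have ht0 : 0 < t := by rw [ht']; linarith
  have h1 : (m : ℝ) = t * (1 - 1 / t) := by
    rw [mul_sub, mul_one, mul_one_div_cancel ht0.ne', ht']
    ring
  have hu1 : 1 / t < 1 := by
    rw [div_lt_one ht0, ht']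
    linarith
  have h2 : (1 - 1 / t) ^ (-δ) ≥ 1 + δ * (1 / t) := by
    have hpos : 0 < 1 - 1 / t := by linarith
    rw [Real.rpow_def_of_pos hpos]
    have h3 : Real.log (1 - 1 / t) ≤ -(1 / t) := by
      have := Real.log_le_sub_one_of_pos hpos
      linarith
    have h4 := Real.add_one_le_exp (Real.log (1 - 1 / t) * -δ)
    have h5 : δ * (1 / t) ≤ Real.log (1 - 1 / t) * -δ := by nlinarith
    linarith
  have h3 : (m : ℝ) ^ (-δ) = t ^ (-δ) * (1 - 1 / t) ^ (-δ) := by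
    conv_lhs => rw [h1]
    exact Real.mul_rpow ht0.le (by linarith)
  have h4 : t ^ (-1 - δ) = t ^ (-δ) * (1 / t) := by
    rw [show (-1 - δ : ℝ) = -δ + -1 by ring, Real.rpow_add ht0, Real.rpow_neg_one, one_div]
  have h5 : 0 < t ^ (-δ) := by positivity
  rw [h3, h4]
  have h6 : t ^ (-δ) * (δ * (1 / t)) ≤ t ^ (-δ) * (1 - 1 / t) ^ (-δ) - t ^ (-δ) := by
    have := mul_le_mul_of_nonneg_left h2 h5.le
    linarith
  calc t ^ (-δ) * (1 / t) = 1 / δ * (t ^ (-δ) * (δ * (1 / t))) := by field_simp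
    _ ≤ _ := by gcongr

theorem tele (f : ℕ → ℝ) {N : ℕ} (hN : 1 ≤ N) :
    ∑ m ∈ Ico 1 N, (f m - f (m + 1)) = f 1 - f N := by
  induction N, hN using Nat.le_induction with
  | base => simp
  | succ n hn ih =>
    rw [sum_Ico_succ_top hn, ih]
    ring

theorem zeta_le {δ : ℝ} (hδ : 0 < δ) (N : ℕ) :
    ∑ m ∈ Ico 1 N, ((m + 1 : ℕ) : ℝ) ^ (-1 - δ) ≤ 1 / δ := by
  rcases Nat.lt_or_ge N 1 with h | h
  · rw [Ico_eq_empty (by omega), sum_empty]
    positivity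
  · have h1 : ∑ m ∈ Ico 1 N, ((m + 1 : ℕ) : ℝ) ^ (-1 - δ) ≤
        ∑ m ∈ Ico 1 N, 1 / δ * ((m : ℝ) ^ (-δ) - ((m + 1 : ℕ) : ℝ) ^ (-δ)) :=
      sum_le_sum fun m hm => zeta_term hδ (mem_Ico.1 hm).1
    refine h1.trans ?_
    rw [← mul_sum, tele (fun m : ℕ => (m : ℝ) ^ (-δ)) h]
    have h2 : (0 : ℝ) ≤ (N : ℝ) ^ (-δ) := by positivity
    have h3 : (((1 : ℕ) : ℝ)) ^ (-δ) = 1 := by
      rw [Nat.cast_one, Real.one_rpow]
    rw [h3]
    calc 1 / δ * (1 - (N : ℝ) ^ (-δ)) ≤ 1 / δ * 1 := by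
          gcongr
          linarith
      _ = 1 / δ := mul_one _

variable {K : Type} [Field K] [NumberField K]

theorem sum_nm_le {δ : ℝ} (hδ : 0 < δ) (A : Finset (HeightOneSpectrum (𝓞 K))) :
    ∑ v ∈ A, (nm v : ℝ) ^ (-1 - δ) ≤ Module.finrank ℚ K / δ := by
  classical
  set n : ℕ := Module.finrank ℚ K with hn
  set I := A.image fun v => (below v : ℕ) with hI
  obtain ⟨N, hN⟩ : ∃ N : ℕ, ∀ p ∈ I, p < N := by
    refine ⟨∑ p ∈ I, p + 1, fun p hp => ?_⟩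
    have := single_le_sum (f := fun p : ℕ => p) (fun _ _ => Nat.zero_le _) hp
    exact Nat.lt_succ_of_le this
  have h1 : ∑ v ∈ A, (nm v : ℝ) ^ (-1 - δ) ≤ ∑ v ∈ A, (((below v : ℕ) : ℕ) : ℝ) ^ (-1 - δ) := by
    refine sum_le_sum fun v _ => ?_
    refine Real.rpow_le_rpow_of_nonpos ?_ ?_ (by linarith)
    · exact_mod_cast (below v).2.pos
    · exact_mod_cast below_le_nm v
  have h2 : ∑ v ∈ A, (((below v : ℕ) : ℕ) : ℝ) ^ (-1 - δ) =
      ∑ p ∈ I, ∑ v ∈ A.filter (fun v => (below v : ℕ) = p), (p : ℝ) ^ (-1 - δ) := by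
    rw [← sum_fiberwise_of_maps_to (t := I) (g := fun v => (below v : ℕ))
      (fun v hv => mem_image_of_mem _ hv)]
    refine sum_congr rfl fun p _ => sum_congr rfl fun v hv => ?_
    rw [mem_filter] at hv
    rw [hv.2]
  have h3 : ∑ p ∈ I, ∑ v ∈ A.filter (fun v => (below v : ℕ) = p), (p : ℝ) ^ (-1 - δ) ≤
      ∑ p ∈ I, n * (p : ℝ) ^ (-1 - δ) := by
    refine sum_le_sum fun p hp => ?_
    rw [sum_const, nsmul_eq_mul]
    refine mul_le_mul_of_nonneg_right ?_ (by positivity)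
    obtain ⟨v₀, hv₀, rfl⟩ := mem_image.1 hp
    have := card_above (below v₀) (A.filter (fun v => (below v : ℕ) = (below v₀ : ℕ)))
      (fun w hw => Subtype.ext (mem_filter.1 hw).2)
    exact_mod_cast this
  have h4 : ∑ p ∈ I, (p : ℝ) ^ (-1 - δ) ≤ ∑ m ∈ Ico 1 N, ((m + 1 : ℕ) : ℝ) ^ (-1 - δ) := by
    have h5 : I ⊆ (Ico 1 N).image fun m => m + 1 := by
      intro p hp
      have hpN := hN p hp
      obtain ⟨v₀, hv₀, rfl⟩ := mem_image.1 hp
      have h2p := (below v₀).2.two_le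
      rw [mem_image]
      exact ⟨(below v₀ : ℕ) - 1, mem_Ico.2 ⟨by omega, by omega⟩, by omega⟩
    refine (sum_le_sum_of_subset_of_nonneg h5 fun p _ _ => by positivity).trans (le_of_eq ?_)
    rw [sum_image (fun a _ b _ h => by simpa using h)]
  calc ∑ v ∈ A, (nm v : ℝ) ^ (-1 - δ) ≤ ∑ p ∈ I, n * (p : ℝ) ^ (-1 - δ) :=
        h1.trans (h2.le.trans h3)
    _ = n * ∑ p ∈ I, (p : ℝ) ^ (-1 - δ) := by rw [mul_sum]
    _ ≤ n * (1 / δ) := by
        gcongr
        exact h4.trans (zeta_le hδ N)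
    _ = n / δ := by ring

/-- **the logarithm of the `L`-series near the edge** -/
theorem edge : ∃ D : ℝ, 0 ≤ D ∧ ∀ (X : ℕ), 1 ≤ X → ∀ (a b : 𝓞 K) (L : ℝ), 0 ≤ L → Small L X a b →
    ∀ s : ℂ, 3 / 2 < s.re → ‖∑' v : HeightOneSpectrum (𝓞 K), lv s v a b‖ ≤
      D * (1 + L) * (1 + ‖s‖) + D * (1 + 1 / (s.re - 3 / 2)) *
        (X : ℝ) ^ (-((s.re - 3 / 2) / 10)) := by
  classical
  obtain ⟨D₁, hD₁, h1⟩ := log_sum_bound (K := K) (σ₀ := 3 / 2) (by norm_num)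
  obtain ⟨hy0, hy1⟩ := y₀_bounds (σ := 1) (by norm_num)
  set r₀ : ℝ := (2 : ℝ) ^ ((1 : ℝ) / 2 - 1) with hr₀
  set E : ℝ := 2 * (3 + (1 - r₀)⁻¹) with hE
  have hE0 : 0 ≤ E := by
    have : 0 ≤ (1 - r₀)⁻¹ := by
      rw [inv_nonneg]
      linarith
    rw [hE]
    linarith
  set n : ℕ := Module.finrank ℚ K with hn
  refine ⟨D₁ + E * (2 * n), by positivity, fun X hX a b L hL hsm s hs => ?_⟩
  set η : ℝ := s.re - 3 / 2 with hη
  have hη0 : 0 < η := by rw [hη]; linarith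
  have hX1 : (1 : ℝ) ≤ X := by exact_mod_cast hX
  -- the cut-off
  obtain ⟨Z, hZ1, hZ2, hZ3⟩ : ∃ Z : ℕ, 1 ≤ Z ∧ Z ^ 5 ≤ X ∧ X < (Z + 1) ^ 5 := by
    have hex : ∃ Z : ℕ, X < (Z + 1) ^ 5 := ⟨X, by
      calc X < X + 1 := Nat.lt_succ_self _
        _ ≤ (X + 1) ^ 5 := Nat.le_self_pow (by norm_num) _⟩
    refine ⟨Nat.find hex, ?_, ?_, Nat.find_spec hex⟩
    · by_contra hcon
      have h0 : Nat.find hex = 0 := by omega
      have := Nat.find_spec hex
      rw [h0] at this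
      simp at this
      omega
    · rcases Nat.eq_zero_or_pos (Nat.find hex) with h0 | h0
      · rw [h0]
        simp
      · have := Nat.find_min hex (m := Nat.find hex - 1) (by omega)
        rw [not_lt, Nat.sub_add_cancel h0] at this
        exact this
  have hsplit : ∑' v : HeightOneSpectrum (𝓞 K), lv s v a b =
      ∑ v ∈ Bk K 1 Z, lv s v a b + ∑' v : ↥((Bk K 1 Z : Set (HeightOneSpectrum (𝓞 K)))ᶜ), lv s v a b := by
    exact ((lv_summable hs a b).sum_add_tsum_compl).symm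
  have hfin : ‖∑ v ∈ Bk K 1 Z, lv s v a b‖ ≤ D₁ * (1 + L) * (1 + ‖s‖) := by
    have h2 := h1 a b L hL s hs.le 1 1 Z le_rfl (by norm_num) le_rfl hZ1 (fun m hm1 hm2 =>
      hsm m hm1 ((Nat.pow_le_pow_left hm2 5).trans hZ2))
    rwa [Real.one_rpow, mul_one] at h2
  -- the tail
  set q := (X : ℝ) ^ (-(η / 10)) with hq
  have hq0 : 0 ≤ q := by positivity
  have hbound : ∀ v : HeightOneSpectrum (𝓞 K), v ∉ Bk K 1 Z →
      ‖lv s v a b‖ ≤ E * q * (nm v : ℝ) ^ (-1 - η / 2) := by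
    intro v hv
    unfold lv
    split_ifs with h6
    · rw [norm_zero]
      positivity
    · have h2v := two_le_nm v
      have hvZ : Z + 1 ≤ nm v := by
        by_contra hcon
        exact hv (mem_Bk.2 ⟨⟨by omega, by omega⟩, h6⟩)
      have hv0 : (0 : ℝ) < nm v := by exact_mod_cast nm_pos v
      have hsz : sz (𝓞 K ⧸ v.asIdeal) (xv v s) ≤ r₀ :=
        (sz_le v (by linarith : (1 : ℝ) ≤ s.re)).trans (pow_le_two v (by norm_num))
      refine (ll_bound (six_ne h6) _ _ hy0 hy1 hsz).trans ?_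
      have e0 : 2 * (3 + (1 - r₀)⁻¹) = E := rfl
      rw [e0, sz_xv]
      have e1 : (nm v : ℝ) ^ (1 / 2 - s.re) = (nm v : ℝ) ^ (-(η / 2)) * (nm v : ℝ) ^ (-1 - η / 2) := by
        rw [← Real.rpow_add hv0]
        congr 1
        rw [hη]
        ring
      rw [e1, ← mul_assoc]
      refine mul_le_mul_of_nonneg_right (mul_le_mul_of_nonneg_left ?_ hE0) (by positivity)
      have h5 : (X : ℝ) ^ ((1 : ℝ) / 5) ≤ nm v := by
        have h6 : (X : ℝ) ≤ ((nm v : ℕ) : ℝ) ^ 5 := by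
          have : X ≤ (nm v) ^ 5 := hZ3.le.trans (Nat.pow_le_pow_left hvZ 5)
          exact_mod_cast this
        calc (X : ℝ) ^ ((1 : ℝ) / 5) ≤ (((nm v : ℕ) : ℝ) ^ 5) ^ ((1 : ℝ) / 5) := by gcongr
          _ = nm v := by
              rw [← Real.rpow_natCast, ← Real.rpow_mul hv0.le]
              norm_num
      calc (nm v : ℝ) ^ (-(η / 2)) ≤ ((X : ℝ) ^ ((1 : ℝ) / 5)) ^ (-(η / 2)) :=
            Real.rpow_le_rpow_of_nonpos (by positivity) h5 (by linarith)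
        _ = q := by
            rw [← Real.rpow_mul (by positivity), hq]
            congr 1
            ring
  have hsumm : Summable fun v : HeightOneSpectrum (𝓞 K) => (nm v : ℝ) ^ (-1 - η / 2) :=
    nm_summable' (by linarith)
  have htsum : ∑' v : HeightOneSpectrum (𝓞 K), (nm v : ℝ) ^ (-1 - η / 2) ≤ n / (η / 2) :=
    hsumm.tsum_le_of_sum_le fun A => sum_nm_le (half_pos hη0) A
  have htail : ‖∑' v : ↥((Bk K 1 Z : Set (HeightOneSpectrum (𝓞 K)))ᶜ), lv s v a b‖ ≤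
      E * q * (n / (η / 2)) := by
    have h2 : Summable fun v : ↥((Bk K 1 Z : Set (HeightOneSpectrum (𝓞 K)))ᶜ) =>
        (nm (v : HeightOneSpectrum (𝓞 K)) : ℝ) ^ (-1 - η / 2) := hsumm.subtype _
    refine (tsum_of_norm_bounded (h2.mul_left (E * q)).hasSum fun v => hbound v ?_).trans ?_
    · exact fun h => v.2 h
    · rw [tsum_mul_left]
      refine mul_le_mul_of_nonneg_left (le_trans ?_ htsum) (by positivity)
      exact Summable.tsum_subtype_le _ _ (fun v => by positivity) hsumm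
  rw [hsplit]
  refine (norm_add_le _ _).trans ((add_le_add hfin htail).trans ?_)
  have g1 : 0 ≤ ‖s‖ := norm_nonneg s
  have g2 : 0 ≤ E * (2 * n) * (1 + L) * (1 + ‖s‖) := by positivity
  have g3 : E * q * (n / (η / 2)) = E * (2 * n) * (1 / η) * q := by
    field_simp
  have g4 : 0 ≤ E * (2 * n) * q := by positivity
  have g5 : 0 ≤ D₁ * (1 + 1 / η) * q := by positivity
  rw [g3]
  nlinarith

end Pool.Agent.P8H18.AA
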