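import Pool.Agent.P8H18.MF.Glob

/-! Equidistribution of the elements of a box modulo an ideal, with an explicit error. -/

set_option autoImplicit false
set_option linter.unusedSectionVars false

namespace Pool.Agent.P8H18.AA

open Finset NumberField IsDedekindDomain Pool.Agent.P8H18.MF

theorem bern {u : ℝ} (h0 : 0 ≤ u) (h1 : u ≤ 1) (n : ℕ) : (1 + u) ^ n ≤ 1 + (2 ^ n - 1) * u := by
  induction n with
  | zero => simp
  | succ n ih =>
    have h2 : (1 : ℝ) ≤ 2 ^ n := one_le_pow₀ (by norm_num)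
    calc (1 + u) ^ (n + 1) = (1 + u) ^ n * (1 + u) := pow_succ _ _
      _ ≤ (1 + (2 ^ n - 1) * u) * (1 + u) := by gcongr
      _ = 1 + 2 ^ n * u + (2 ^ n - 1) * (u * u) := by ring
      _ ≤ 1 + 2 ^ n * u + (2 ^ n - 1) * (u * 1) := by
          have : 0 ≤ (2 : ℝ) ^ n - 1 := by linarith
          gcongr
      _ = 1 + (2 ^ (n + 1) - 1) * u := by ring

variable {K : Type} [Field K] [NumberField K] {ι : Type} [Fintype ι] [DecidableEq ι]

section
variable (β : Module.Basis ι ℤ (𝓞 K))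

/-- small representatives of the residue classes -/
theorem exists_rep (I : Ideal (𝓞 K)) (hI : I ≠ ⊥) (γ : 𝓞 K ⧸ I) :
    ∃ t : 𝓞 K, Ideal.Quotient.mk I t = γ ∧ ∀ i, |β.repr t i| ≤ (Ideal.absNorm I : ℕ) := by
  obtain ⟨t₀, ht₀⟩ := Ideal.Quotient.mk_surjective γ
  set N : ℕ := Ideal.absNorm I with hN
  have hN0 : 0 < N := Nat.pos_of_ne_zero (by rw [hN, Ne, Ideal.absNorm_eq_zero_iff]; exact hI)
  have hNI : ((N : ℕ) : 𝓞 K) ∈ I := Ideal.absNorm_mem I
  set t : 𝓞 K := β.equivFun.symm fun i => β.repr t₀ i % N with ht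
  have hrep : ∀ i, β.repr t i = β.repr t₀ i % N := by
    intro i
    have : β.equivFun t = fun i => β.repr t₀ i % N := β.equivFun.apply_symm_apply _
    exact congrFun this i
  refine ⟨t, ?_, fun i => ?_⟩
  · rw [← ht₀, Ideal.Quotient.eq]
    set w : 𝓞 K := β.equivFun.symm fun i => -(β.repr t₀ i / N) with hw
    have e : t - t₀ = (N : 𝓞 K) * w := by
      apply β.equivFun.injective
      funext i
      have hwi : β.repr w i = -(β.repr t₀ i / N) := by
        have : β.equivFun w = fun i => -(β.repr t₀ i / N) := β.equivFun.apply_symm_apply _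
        exact congrFun this i
      have e2 : (N : 𝓞 K) * w = (N : ℤ) • w := by
        rw [zsmul_eq_mul]
        push_cast
        rfl
      rw [e2]
      simp only [Module.Basis.equivFun_apply, map_sub, map_smul, Pi.sub_apply,
        Pi.smul_apply, smul_eq_mul]
      rw [hrep, hwi, Int.emod_def]
      ring
    rw [e]
    exact I.mul_mem_right _ hNI
  · rw [hrep, abs_of_nonneg (Int.emod_nonneg _ (by exact_mod_cast hN0.ne'))]
    exact (Int.emod_lt_of_pos _ (by exact_mod_cast hN0)).le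

/-- the constant -/
noncomputable def cc (ι : Type) [Fintype ι] : ℝ := 2 ^ Fintype.card ι

theorem cc_pos : 0 < cc ι := by unfold cc; positivity

theorem delta_le {N X : ℕ} (hX : 1 ≤ X) (hN : N ≤ X) :
    ((box β (X + N)).card - (box β X).card : ℝ) ≤ cc ι * (N / X) * (box β X).card := by
  have hX0 : (0 : ℝ) < X := by exact_mod_cast hX
  have h2 : (0 : ℝ) < 2 * (X : ℝ) + 1 := by positivity
  have hb : (0 : ℝ) < (box β X).card := by exact_mod_cast card_box_pos β X
  set u : ℝ := 2 * N / (2 * X + 1) with hu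
  have hu0 : 0 ≤ u := by positivity
  have hNX : (N : ℝ) ≤ X := by exact_mod_cast hN
  have hu1 : u ≤ 1 := by
    rw [hu, div_le_one h2]
    linarith
  have hu2 : u ≤ N / X := by
    rw [hu, div_le_div_iff₀ h2 hX0]
    have : (0 : ℝ) ≤ N := by positivity
    nlinarith
  have h1 : ((box β (X + N)).card : ℝ) = (1 + u) ^ Fintype.card ι * (box β X).card := by
    rw [card_box, card_box, hu]
    push_cast
    rw [← mul_pow]
    congr 1
    field_simp
    ring
  rw [h1]
  have h3 := bern hu0 hu1 (Fintype.card ι)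
  have h4 : (1 : ℝ) ≤ 2 ^ Fintype.card ι := one_le_pow₀ (by norm_num)
  calc (1 + u) ^ Fintype.card ι * (box β X).card - (box β X).card
      = ((1 + u) ^ Fintype.card ι - 1) * (box β X).card := by ring
    _ ≤ (2 ^ Fintype.card ι * (N / X)) * (box β X).card := by
        refine mul_le_mul_of_nonneg_right ?_ hb.le
        calc (1 + u) ^ Fintype.card ι - 1 ≤ (2 ^ Fintype.card ι - 1) * u := by linarith
          _ ≤ 2 ^ Fintype.card ι * u := by nlinarith
          _ ≤ 2 ^ Fintype.card ι * (N / X) := by gcongr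
    _ = cc ι * (N / X) * (box β X).card := by unfold cc; ring

open Classical in
/-- equidistribution with an error term -/
theorem cnt_error (I : Ideal (𝓞 K)) [Fintype (𝓞 K ⧸ I)] (hI : I ≠ ⊥) {X : ℕ} (hX : 1 ≤ X)
    (hN : Ideal.absNorm I ≤ X) (α : 𝓞 K ⧸ I) :
    |(cnt β I X α : ℝ) - (box β X).card / (Ideal.absNorm I : ℝ)| ≤
      cc ι * ((Ideal.absNorm I : ℝ) / X) * (box β X).card := by
  set N : ℕ := Ideal.absNorm I with hNdef
  have hcard : Fintype.card (𝓞 K ⧸ I) = N := by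
    rw [hNdef, Ideal.absNorm_apply, Submodule.cardQuot_apply, Nat.card_eq_fintype_card]
  have hN0 : (0 : ℝ) < N := by
    rw [← hcard]
    exact_mod_cast Fintype.card_pos
  set δ : ℝ := (box β (X + N)).card - (box β X).card with hδ
  have hd : ∀ α α', (cnt β I X α : ℝ) - cnt β I X α' ≤ δ := by
    intro α α'
    obtain ⟨t, ht, hT⟩ := exists_rep β I hI (α' - α)
    exact cnt_diff β I X α α' ht hT
  have hδ0 : 0 ≤ δ := by
    have := hd α α
    rwa [sub_self] at this
  have h1 : (N : ℝ) * cnt β I X α - (box β X).card =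
      ∑ α', ((cnt β I X α : ℝ) - cnt β I X α') := by
    rw [sum_sub_distrib, sum_const, card_univ, nsmul_eq_mul, ← cnt_sum β I X, hcard]
    push_cast
    rfl
  have h2 : |(N : ℝ) * cnt β I X α - (box β X).card| ≤ N * δ := by
    rw [h1]
    refine (abs_sum_le_sum_abs _ _).trans ((sum_le_card_nsmul _ _ δ fun α' _ => ?_).trans_eq ?_)
    · rw [abs_le]
      constructor
      · have := hd α' α
        linarith
      · exact hd α α'
    · rw [card_univ, nsmul_eq_mul, hcard]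
  have h3 : (cnt β I X α : ℝ) - (box β X).card / (N : ℝ) =
      ((N : ℝ) * cnt β I X α - (box β X).card) / N := by
    field_simp
  rw [h3, abs_div, abs_of_pos hN0, div_le_iff₀ hN0]
  refine h2.trans ?_
  rw [mul_comm]
  exact mul_le_mul_of_nonneg_right (delta_le β hX hN) hN0.le

open Classical in
theorem sum_box (I : Ideal (𝓞 K)) [Fintype (𝓞 K ⧸ I)] (X : ℕ)
    (φ : 𝓞 K ⧸ I → 𝓞 K ⧸ I → ℝ) :
    ∑ a ∈ box β X, ∑ b ∈ box β X, φ (Ideal.Quotient.mk I a) (Ideal.Quotient.mk I b) =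
      ∑ x, ∑ y, (cnt β I X x : ℝ) * cnt β I X y * φ x y := by
  have h2 : ∀ (g : 𝓞 K ⧸ I → ℝ), ∑ a ∈ box β X, g (Ideal.Quotient.mk I a) =
      ∑ x, (cnt β I X x : ℝ) * g x := by
    intro g
    rw [← sum_fiberwise_of_maps_to (t := (univ : Finset (𝓞 K ⧸ I)))
      (g := fun a => Ideal.Quotient.mk I a) (fun _ _ => mem_univ _)]
    refine sum_congr rfl fun x _ => ?_
    rw [cnt, ← nsmul_eq_mul, ← sum_const]
    refine sum_congr rfl fun a ha => ?_
    rw [mem_filter] at ha
    rw [ha.2]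
  rw [h2 (fun x => ∑ b ∈ box β X, φ x (Ideal.Quotient.mk I b))]
  refine sum_congr rfl fun x _ => ?_
  rw [h2 (φ x), mul_sum]
  exact sum_congr rfl fun y _ => by ring

open Classical in
/-- **functions of mean zero** -/
theorem sum_zero (I : Ideal (𝓞 K)) [Fintype (𝓞 K ⧸ I)] (hI : I ≠ ⊥) {X : ℕ} (hX : 1 ≤ X)
    (hN : cc ι * (Ideal.absNorm I : ℝ) ^ 2 ≤ X) (φ : 𝓞 K ⧸ I → 𝓞 K ⧸ I → ℝ) {B : ℝ}
    (hB : ∀ x y, |φ x y| ≤ B) (h0 : ∑ x, ∑ y, φ x y = 0) :
    |∑ a ∈ box β X, ∑ b ∈ box β X, φ (Ideal.Quotient.mk I a) (Ideal.Quotient.mk I b)| ≤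
      3 * cc ι * ((Ideal.absNorm I : ℝ) ^ 2 / X) * B * ((box β X).card : ℝ) ^ 2 := by
  set N : ℕ := Ideal.absNorm I with hNdef
  have hcard : Fintype.card (𝓞 K ⧸ I) = N := by
    rw [hNdef, Ideal.absNorm_apply, Submodule.cardQuot_apply, Nat.card_eq_fintype_card]
  have hN0' : 0 < N := by
    rw [← hcard]
    exact Fintype.card_pos
  have hN0 : (0 : ℝ) < N := by exact_mod_cast hN0'
  have hN1 : (1 : ℝ) ≤ N := by exact_mod_cast hN0'
  have hX0 : (0 : ℝ) < X := by exact_mod_cast hX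
  have hcc1 : (1 : ℝ) ≤ cc ι := by unfold cc; exact one_le_pow₀ (by norm_num)
  have hb : (0 : ℝ) < (box β X).card := by exact_mod_cast card_box_pos β X
  have hNX : N ≤ X := by
    have : (N : ℝ) ≤ X := by nlinarith
    exact_mod_cast this
  have hB0 : 0 ≤ B := (abs_nonneg _).trans (hB 0 0)
  set m : ℝ := (box β X).card / (N : ℝ) with hm
  have hm0 : 0 < m := by positivity
  set ρ : ℝ := cc ι * ((N : ℝ) ^ 2 / X) with hρ
  have hρ0 : 0 ≤ ρ := by have := cc_pos (ι := ι); positivity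
  have hρ1 : ρ ≤ 1 := by
    rw [hρ, ← mul_div_assoc, div_le_one hX0]
    exact hN
  have herr : ∀ x, |(cnt β I X x : ℝ) - m| ≤ ρ * m := by
    intro x
    refine (cnt_error β I hI hX hNX x).trans (le_of_eq ?_)
    rw [hρ, hm, ← hNdef]
    field_simp
  rw [sum_box]
  have e1 : ∑ x, ∑ y, (cnt β I X x : ℝ) * cnt β I X y * φ x y =
      ∑ x, ∑ y, ((cnt β I X x : ℝ) * cnt β I X y - m ^ 2) * φ x y := by
    have : ∑ x, ∑ y, m ^ 2 * φ x y = 0 := by
      simp_rw [← mul_sum]
      rw [h0, mul_zero]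
    rw [← sub_zero (∑ x, ∑ y, (cnt β I X x : ℝ) * cnt β I X y * φ x y), ← this, ← sum_sub_distrib]
    refine sum_congr rfl fun x _ => ?_
    rw [← sum_sub_distrib]
    exact sum_congr rfl fun y _ => by ring
  rw [e1]
  have e2 : ∀ x y, |((cnt β I X x : ℝ) * cnt β I X y - m ^ 2) * φ x y| ≤
      3 * ρ * m ^ 2 * B := by
    intro x y
    rw [abs_mul]
    refine mul_le_mul ?_ (hB x y) (abs_nonneg _) (by positivity)
    have h1 : (cnt β I X x : ℝ) * cnt β I X y - m ^ 2 =
        ((cnt β I X x : ℝ) - m) * ((cnt β I X y : ℝ) - m) + m * ((cnt β I X x : ℝ) - m) +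
          m * ((cnt β I X y : ℝ) - m) := by ring
    rw [h1]
    refine (abs_add_le _ _).trans ((add_le_add (abs_add_le _ _) le_rfl).trans ?_)
    rw [abs_mul, abs_mul, abs_mul, abs_of_pos hm0]
    have a1 := herr x
    have a2 := herr y
    have a3 : |(cnt β I X x : ℝ) - m| * |(cnt β I X y : ℝ) - m| ≤ (ρ * m) * (ρ * m) :=
      mul_le_mul a1 a2 (abs_nonneg _) (by positivity)
    have a4 : m * |(cnt β I X x : ℝ) - m| ≤ m * (ρ * m) := by gcongr
    have a5 : m * |(cnt β I X y : ℝ) - m| ≤ m * (ρ * m) := by gcongr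
    have a6 : (ρ * m) * (ρ * m) ≤ ρ * m ^ 2 := by
      have : ρ * ρ ≤ ρ * 1 := by gcongr
      have h9 : (0 : ℝ) ≤ m ^ 2 := by positivity
      nlinarith
    nlinarith
  refine (abs_sum_le_sum_abs _ _).trans ?_
  refine (sum_le_sum fun x _ => (abs_sum_le_sum_abs _ _).trans (sum_le_sum fun y _ => e2 x y)).trans
    (le_of_eq ?_)
  rw [sum_const, sum_const, card_univ, hcard, nsmul_eq_mul, nsmul_eq_mul, hρ, hm]
  field_simp

open Classical in
/-- **nonnegative functions** -/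
theorem sum_nonneg_le (I : Ideal (𝓞 K)) [Fintype (𝓞 K ⧸ I)] (hI : I ≠ ⊥) {X : ℕ} (hX : 1 ≤ X)
    (hN : cc ι * (Ideal.absNorm I : ℝ) ^ 2 ≤ X) (φ : 𝓞 K ⧸ I → 𝓞 K ⧸ I → ℝ)
    (hφ : ∀ x y, 0 ≤ φ x y) :
    ∑ a ∈ box β X, ∑ b ∈ box β X, φ (Ideal.Quotient.mk I a) (Ideal.Quotient.mk I b) ≤
      4 * ((box β X).card : ℝ) ^ 2 * ((∑ x, ∑ y, φ x y) / (Ideal.absNorm I : ℝ) ^ 2) := by
  set N : ℕ := Ideal.absNorm I with hNdef
  have hcard : Fintype.card (𝓞 K ⧸ I) = N := by
    rw [hNdef, Ideal.absNorm_apply, Submodule.cardQuot_apply, Nat.card_eq_fintype_card]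
  have hN0' : 0 < N := by
    rw [← hcard]
    exact Fintype.card_pos
  have hN0 : (0 : ℝ) < N := by exact_mod_cast hN0'
  have hN1 : (1 : ℝ) ≤ N := by exact_mod_cast hN0'
  have hX0 : (0 : ℝ) < X := by exact_mod_cast hX
  have hcc1 : (1 : ℝ) ≤ cc ι := by unfold cc; exact one_le_pow₀ (by norm_num)
  have hb : (0 : ℝ) < (box β X).card := by exact_mod_cast card_box_pos β X
  have hNX : N ≤ X := by
    have : (N : ℝ) ≤ X := by nlinarith
    exact_mod_cast this
  set m : ℝ := (box β X).card / (N : ℝ) with hm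
  have hm0 : 0 < m := by positivity
  have herr : ∀ x, (cnt β I X x : ℝ) ≤ 2 * m := by
    intro x
    have h1 := (abs_le.1 (cnt_error β I hI hX hNX x)).2
    have h2 : cc ι * ((N : ℝ) / X) * (box β X).card ≤ m := by
      rw [hm, le_div_iff₀ hN0]
      have h3 : cc ι * ((N : ℝ) / X) * (box β X).card * N =
          (cc ι * (N : ℝ) ^ 2 / X) * (box β X).card := by
        field_simp
      rw [h3]
      have h4 : cc ι * (N : ℝ) ^ 2 / X ≤ 1 := by
        rw [div_le_one hX0]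
        exact hN
      calc cc ι * (N : ℝ) ^ 2 / X * (box β X).card ≤ 1 * (box β X).card := by gcongr
        _ = (box β X).card := one_mul _
    linarith
  rw [sum_box]
  have e2 : ∀ x y, (cnt β I X x : ℝ) * cnt β I X y * φ x y ≤ (2 * m) * (2 * m) * φ x y := by
    intro x y
    refine mul_le_mul_of_nonneg_right ?_ (hφ x y)
    exact mul_le_mul (herr x) (herr y) (by positivity) (by positivity)
  refine (sum_le_sum fun x _ => sum_le_sum fun y _ => e2 x y).trans (le_of_eq ?_)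
  simp_rw [← mul_sum]
  rw [hm]
  field_simp
  ring

end

end Pool.Agent.P8H18.AA
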