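import Pool.Agent.P8H18.AA.Sum
import Pool.Agent.P8H18.MF.One

/-! The exceptional pairs of the family. -/

set_option autoImplicit false
set_option linter.unusedSectionVars false

namespace Pool.Agent.P8H18.AA

open Finset Filter Topology NumberField IsDedekindDomain Pool.Agent.P8H18.MF
open Pool.Agent.H921R2.TatePole (nm two_le_nm nm_summable)
open Pool.Agent.H341R2 (card_v finite_v)

variable {K : Type} [Field K] [NumberField K] {ι : Type} [Fintype ι] [DecidableEq ι]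
variable (β : Module.Basis ι ℤ (𝓞 K))

/-- the density of the family is positive -/
theorem density (c : Prop) : ∃ r : ℝ, 0 < r ∧ (∏' v : HeightOneSpectrum (𝓞 K), dc c v) = r :=
  tprod_pos _ _ uc_summable (dc_sub_one c) fun v => by
    obtain ⟨r, h1, _, h3⟩ := dc_real c v
    exact ⟨r, h1, h3⟩

open Classical in
theorem family_large (c : Prop) : ∃ δ : ℝ, 0 < δ ∧ ∀ᶠ X : ℕ in atTop,
    δ * ((box β X).card : ℝ) ^ 2 ≤
      (((box β X ×ˢ box β X).filter (fun p => Red c p.1 p.2)).card : ℝ) := by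
  obtain ⟨r, hr, hr2⟩ := density (K := K) c
  have h1 := hasM_red (K := K) β c
  rw [hr2] at h1
  have h2 : Tendsto (fun X : ℕ => (X, X)) atTop (atTop : Filter (ℕ × ℕ)) := by
    rw [← prod_atTop_atTop_eq]
    exact tendsto_id.prodMk tendsto_id
  have h3 := h1.comp h2
  have h4 : Tendsto (fun X : ℕ => ((((box β X ×ˢ box β X).filter
      (fun p => Red c p.1 p.2)).card : ℝ) / ((box β X).card : ℝ) ^ 2)) atTop (𝓝 r) := by
    have h5 := (Complex.continuous_re.tendsto _).comp h3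
    rw [Complex.ofReal_re] at h5
    refine h5.congr fun X => ?_
    simp only [Function.comp_apply]
    rw [← fr_eq, Complex.ofReal_re]
    unfold fr
    rw [sq]
  refine ⟨r / 2, by positivity, ?_⟩
  filter_upwards [h4.eventually (lt_mem_nhds (by linarith : r / 2 < r))] with X hX
  have hb : (0 : ℝ) < ((box β X).card : ℝ) ^ 2 := by
    have := card_box_pos β X
    positivity
  rw [lt_div_iff₀ hb] at hX
  exact hX.le

/-- the bound for the sums of traces -/
def Small (L : ℝ) (X : ℕ) (a b : 𝓞 K) : Prop :=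
  ∀ m : ℕ, 1 ≤ m → m ^ 5 ≤ X → |TT a b (m + 1)| ≤ L * m * (1 + Real.log m) ^ 2

theorem small_of {L : ℝ} (hL : 0 < L) {X : ℕ} {a b : 𝓞 K}
    (h : ¬ ∃ J M : ℕ, (2 ^ J) ^ 5 ≤ 32 * X ∧ M ≤ 2 ^ J ∧
      L / 8 * 2 ^ J * ((J : ℝ) + 1) ^ 2 < |TT a b M|) : Small L X a b := by
  intro m hm hmX
  push Not at h
  set k : ℕ := Nat.log 2 m with hk
  have h1 : 2 ^ k ≤ m := Nat.pow_log_le_self 2 (by omega)
  have h2 : m < 2 ^ (k + 1) := Nat.lt_pow_succ_log_self (by norm_num) m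
  have h3 : (2 ^ (k + 1)) ^ 5 ≤ 32 * X := by
    calc (2 ^ (k + 1)) ^ 5 = 32 * (2 ^ k) ^ 5 := by ring
      _ ≤ 32 * m ^ 5 := by gcongr
      _ ≤ 32 * X := by omega
  have h4 := h (k + 1) (m + 1) h3 (by omega)
  refine h4.trans ?_
  have hm1 : (1 : ℝ) ≤ m := by exact_mod_cast hm
  have hlog0 : 0 ≤ Real.log m := Real.log_nonneg hm1
  have h5 : (k : ℝ) ≤ 3 / 2 * Real.log m := by
    have h6 : (2 : ℝ) ^ k ≤ m := by exact_mod_cast h1
    have h7 : Real.log ((2 : ℝ) ^ k) ≤ Real.log m := Real.log_le_log (by positivity) h6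
    rw [Real.log_pow] at h7
    have h8 := Real.log_two_gt_d9
    have hk0 : (0 : ℝ) ≤ k := by positivity
    nlinarith
  have h6 : (2 : ℝ) ^ (k + 1) ≤ 2 * m := by
    have : (2 : ℝ) ^ k ≤ m := by exact_mod_cast h1
    rw [pow_succ]
    linarith
  have h7 : (((k + 1 : ℕ) : ℝ) + 1) ≤ 2 * (1 + Real.log m) := by
    push_cast
    linarith
  calc L / 8 * 2 ^ (k + 1) * (((k + 1 : ℕ) : ℝ) + 1) ^ 2
      ≤ L / 8 * (2 * m) * (2 * (1 + Real.log m)) ^ 2 := by gcongr
    _ = L * m * (1 + Real.log m) ^ 2 := by ring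

open Classical in
/-- **the exceptional pairs of the family** -/
theorem main_count (c : Prop) : ∃ C : ℝ, 0 < C ∧ ∃ X₁ : ℕ, ∀ X : ℕ, X₁ ≤ X →
    0 < ((box β X ×ˢ box β X).filter (fun p => Red c p.1 p.2)).card ∧ ∀ L : ℝ, 0 < L →
      (((box β X ×ˢ box β X).filter (fun p => Red c p.1 p.2 ∧ ¬ Small L X p.1 p.2)).card : ℝ) ≤
        C / L ^ 2 * ((box β X ×ˢ box β X).filter (fun p => Red c p.1 p.2)).card := by
  obtain ⟨δ, hδ, hev⟩ := family_large (K := K) β c
  obtain ⟨X₁, hX₁⟩ := eventually_atTop.1 hev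
  have hc2 := c2_pos (K := K) (ι := ι)
  set C₀ : ℝ := 2 * c2 K ι * Module.finrank ℚ K * 64 with hC₀
  have hC₀0 : 0 < C₀ := by
    have : 0 < Module.finrank ℚ K := Module.finrank_pos
    have : (0 : ℝ) < Module.finrank ℚ K := by exact_mod_cast this
    positivity
  refine ⟨C₀ / δ, by positivity, max X₁ (X₀ ι), fun X hX => ?_⟩
  have hfam := hX₁ X (le_of_max_le_left hX)
  have hb : (0 : ℝ) < ((box β X).card : ℝ) ^ 2 := by
    have := card_box_pos β X
    positivity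
  refine ⟨?_, fun L hL => ?_⟩
  · have h1 : (0 : ℝ) < (((box β X ×ˢ box β X).filter (fun p => Red c p.1 p.2)).card : ℝ) :=
      lt_of_lt_of_le (by positivity) hfam
    exact_mod_cast h1
  · have h1 := bad_total (K := K) β (le_of_max_le_right hX) (by positivity : 0 < L / 8)
    have h2 : (((box β X ×ˢ box β X).filter
        (fun p => Red c p.1 p.2 ∧ ¬ Small L X p.1 p.2)).card : ℝ) ≤
        ((((box β X) ×ˢ (box β X)).filter fun p => ∃ J M : ℕ, (2 ^ J) ^ 5 ≤ 32 * X ∧ M ≤ 2 ^ J ∧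
          L / 8 * 2 ^ J * ((J : ℝ) + 1) ^ 2 < |TT p.1 p.2 M|).card : ℝ) := by
      have : ((box β X ×ˢ box β X).filter (fun p => Red c p.1 p.2 ∧ ¬ Small L X p.1 p.2)) ⊆
          (((box β X) ×ˢ (box β X)).filter fun p => ∃ J M : ℕ, (2 ^ J) ^ 5 ≤ 32 * X ∧ M ≤ 2 ^ J ∧
            L / 8 * 2 ^ J * ((J : ℝ) + 1) ^ 2 < |TT p.1 p.2 M|) := by
        intro p hp
        rw [mem_filter] at hp ⊢
        refine ⟨hp.1, ?_⟩
        by_contra hcon
        exact hp.2.2 (small_of hL hcon)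
      exact_mod_cast card_le_card this
    refine h2.trans (h1.trans ?_)
    calc 2 * c2 K ι * Module.finrank ℚ K / (L / 8) ^ 2 * ((box β X).card : ℝ) ^ 2
        = C₀ / δ / L ^ 2 * (δ * ((box β X).card : ℝ) ^ 2) := by
          rw [hC₀]
          field_simp
          ring
      _ ≤ C₀ / δ / L ^ 2 *
          ((box β X ×ˢ box β X).filter (fun p => Red c p.1 p.2)).card := by gcongr

end Pool.Agent.P8H18.AA
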