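import Pool.Agent.P8H18.AA.Eq

/-! The second moment of sums of traces over the pairs of a box. -/

set_option autoImplicit false
set_option linter.unusedSectionVars false

namespace Pool.Agent.P8H18.AA

open Finset NumberField IsDedekindDomain Pool.Agent.P8H18.MF
open Pool.Agent.H921R2.TatePole (nm two_le_nm nm_summable)
open Pool.Agent.H341R2 (card_v finite_v)

variable {K : Type} [Field K] [NumberField K] {ι : Type} [Fintype ι] [DecidableEq ι]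

/-- the trace at `v`, `0` if `v ∣ 6` -/
noncomputable def tv (v : HeightOneSpectrum (𝓞 K)) (a b : 𝓞 K) : ℝ := by
  classical
  exact if (6 : 𝓞 K) ∈ v.asIdeal then 0 else
    (tr (Ideal.Quotient.mk v.asIdeal a) (Ideal.Quotient.mk v.asIdeal b) : ℝ)

section loc
variable {F : Type} [Field F] [Fintype F] [DecidableEq F]

theorem sum_tr_zero (h6 : (6 : F) ≠ 0) : ∑ a : F, ∑ b : F, (tr a b : ℝ) = 0 := by
  have h := sum_odd h6 (fun n _ => (n : ℂ)) (fun n _ => by push_cast; rfl)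
  have h2 : ((∑ a : F, ∑ b : F, (tr a b : ℝ) : ℝ) : ℂ) = 0 := by
    push_cast
    exact h
  exact_mod_cast h2

theorem sum_tr_sq_le (h6 : (6 : F) ≠ 0) :
    ∑ a : F, ∑ b : F, (tr a b : ℝ) ^ 2 ≤ (Fintype.card F : ℝ) ^ 2 * Fintype.card F := by
  have h := sum_tr_sq (F := F) h6
  have h2 : ∑ a : F, ∑ b : F, (tr a b : ℝ) ^ 2 =
      (Fintype.card F : ℝ) ^ 2 * ((Fintype.card F : ℝ) - 1) := by exact_mod_cast h
  rw [h2]
  have : (0 : ℝ) ≤ (Fintype.card F : ℝ) ^ 2 := by positivity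
  nlinarith

end loc

theorem tv_bound (v : HeightOneSpectrum (𝓞 K)) (a b : 𝓞 K) :
    |tv v a b| ≤ 2 * Real.sqrt (nm v) := by
  classical
  unfold tv
  split_ifs with h6
  · rw [abs_zero]
    positivity
  · have := tr_bound (six_ne h6) (Ideal.Quotient.mk v.asIdeal a) (Ideal.Quotient.mk v.asIdeal b)
    rwa [card_v] at this

variable (β : Module.Basis ι ℤ (𝓞 K))

/-- the diagonal terms -/
theorem diag {v : HeightOneSpectrum (𝓞 K)} (h6 : (6 : 𝓞 K) ∉ v.asIdeal) {X : ℕ} (hX : 1 ≤ X)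
    (hN : cc ι * (nm v : ℝ) ^ 2 ≤ X) :
    ∑ a ∈ box β X, ∑ b ∈ box β X, tv v a b * tv v a b ≤
      4 * ((box β X).card : ℝ) ^ 2 * nm v := by
  classical
  have h := sum_nonneg_le β v.asIdeal v.ne_bot hX hN (fun x y => (tr x y : ℝ) ^ 2)
    (fun x y => sq_nonneg _)
  have e1 : ∑ a ∈ box β X, ∑ b ∈ box β X, tv v a b * tv v a b =
      ∑ a ∈ box β X, ∑ b ∈ box β X, (fun x y => (tr x y : ℝ) ^ 2)
        (Ideal.Quotient.mk v.asIdeal a) (Ideal.Quotient.mk v.asIdeal b) := by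
    refine sum_congr rfl fun a _ => sum_congr rfl fun b _ => ?_
    unfold tv
    rw [if_neg h6]
    ring
  rw [e1]
  refine h.trans ?_
  have hq : (0 : ℝ) < nm v := by exact_mod_cast nm_pos v
  refine mul_le_mul_of_nonneg_left ?_ (by positivity)
  have h2 := sum_tr_sq_le (F := 𝓞 K ⧸ v.asIdeal) (six_ne h6)
  rw [card_v] at h2
  have hh : (Ideal.absNorm v.asIdeal : ℝ) = nm v := rfl
  rw [hh, div_le_iff₀ (by positivity)]
  calc _ ≤ _ := h2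
    _ = _ := by ring

theorem coprime_v {v w : HeightOneSpectrum (𝓞 K)} (h : v ≠ w) :
    IsCoprime v.asIdeal w.asIdeal := by
  rw [Ideal.isCoprime_iff_sup_eq]
  exact v.isMaximal.coprime_of_ne w.isMaximal fun h2 => h (HeightOneSpectrum.ext h2)

theorem norm_inf {v w : HeightOneSpectrum (𝓞 K)} (h : v ≠ w) :
    Ideal.absNorm (v.asIdeal ⊓ w.asIdeal) = nm v * nm w := by
  rw [← Ideal.mul_eq_inf_of_isCoprime (coprime_v h), map_mul]
  rfl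

/-- the off-diagonal terms -/
theorem off {v w : HeightOneSpectrum (𝓞 K)} (hvw : v ≠ w) (h6 : (6 : 𝓞 K) ∉ v.asIdeal)
    (h6' : (6 : 𝓞 K) ∉ w.asIdeal) {X : ℕ} (hX : 1 ≤ X)
    (hN : cc ι * ((nm v : ℝ) * nm w) ^ 2 ≤ X) :
    |∑ a ∈ box β X, ∑ b ∈ box β X, tv v a b * tv w a b| ≤
      12 * cc ι * (((nm v : ℝ) * nm w) ^ 2 / X) * (Real.sqrt (nm v) * Real.sqrt (nm w)) *
        ((box β X).card : ℝ) ^ 2 := by
  classical
  set I : Ideal (𝓞 K) := v.asIdeal ⊓ w.asIdeal with hI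
  let e := Ideal.quotientInfEquivQuotientProd v.asIdeal w.asIdeal (coprime_v hvw)
  have hfin : Fintype (𝓞 K ⧸ I) := Fintype.ofEquiv _ e.symm.toEquiv
  have hnorm : Ideal.absNorm I = nm v * nm w := norm_inf hvw
  have hIne : I ≠ ⊥ := by
    intro h
    have h1 : Ideal.absNorm I = 0 := by rw [h]; exact Ideal.absNorm_bot
    rw [hnorm] at h1
    exact absurd h1 (Nat.mul_pos (nm_pos v) (nm_pos w)).ne'
  set φ : 𝓞 K ⧸ I → 𝓞 K ⧸ I → ℝ := fun x y =>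
    (tr (e x).1 (e y).1 : ℝ) * (tr (e x).2 (e y).2 : ℝ) with hφ
  have hB : ∀ x y, |φ x y| ≤ 4 * (Real.sqrt (nm v) * Real.sqrt (nm w)) := by
    intro x y
    have h1 := tr_bound (six_ne h6) (e x).1 (e y).1
    have h2 := tr_bound (six_ne h6') (e x).2 (e y).2
    rw [card_v] at h1 h2
    rw [hφ, abs_mul]
    calc |(tr (e x).1 (e y).1 : ℝ)| * |(tr (e x).2 (e y).2 : ℝ)|
        ≤ (2 * Real.sqrt (nm v)) * (2 * Real.sqrt (nm w)) :=
          mul_le_mul h1 h2 (abs_nonneg _) (by positivity)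
      _ = _ := by ring
  have h0 : ∑ x, ∑ y, φ x y = 0 := by
    have e3 : ∑ x, ∑ y, φ x y = ∑ x : (𝓞 K ⧸ v.asIdeal) × (𝓞 K ⧸ w.asIdeal),
        ∑ y : (𝓞 K ⧸ v.asIdeal) × (𝓞 K ⧸ w.asIdeal),
          (tr x.1 y.1 : ℝ) * (tr x.2 y.2 : ℝ) := by
      rw [← e.toEquiv.sum_comp fun x => ∑ y : (𝓞 K ⧸ v.asIdeal) × (𝓞 K ⧸ w.asIdeal),
        (tr x.1 y.1 : ℝ) * (tr x.2 y.2 : ℝ)]
      refine sum_congr rfl fun x _ => ?_
      rw [← e.toEquiv.sum_comp fun y => (tr (e.toEquiv x).1 y.1 : ℝ) * (tr (e.toEquiv x).2 y.2 : ℝ)]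
      rfl
    have e4 : (∑ x : (𝓞 K ⧸ v.asIdeal) × (𝓞 K ⧸ w.asIdeal),
        ∑ y : (𝓞 K ⧸ v.asIdeal) × (𝓞 K ⧸ w.asIdeal), (tr x.1 y.1 : ℝ) * (tr x.2 y.2 : ℝ)) =
        (∑ x : 𝓞 K ⧸ v.asIdeal, ∑ y : 𝓞 K ⧸ v.asIdeal, (tr x y : ℝ)) *
          (∑ x : 𝓞 K ⧸ w.asIdeal, ∑ y : 𝓞 K ⧸ w.asIdeal, (tr x y : ℝ)) := by
      rw [Fintype.sum_prod_type]
      simp_rw [Fintype.sum_prod_type]
      simp_rw [← mul_sum, ← sum_mul]
      rw [sum_mul_sum]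
    rw [e3, e4, sum_tr_zero (six_ne h6), zero_mul]
  have hN' : cc ι * (Ideal.absNorm I : ℝ) ^ 2 ≤ X := by
    rw [hnorm]
    push_cast
    exact hN
  have h := sum_zero β I hIne hX hN' φ hB h0
  have he : ∀ a : 𝓞 K, e (Ideal.Quotient.mk I a) =
      (Ideal.Quotient.mk v.asIdeal a, Ideal.Quotient.mk w.asIdeal a) := fun a => rfl
  have e1 : ∑ a ∈ box β X, ∑ b ∈ box β X, tv v a b * tv w a b =
      ∑ a ∈ box β X, ∑ b ∈ box β X, φ (Ideal.Quotient.mk I a) (Ideal.Quotient.mk I b) := by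
    refine sum_congr rfl fun a _ => sum_congr rfl fun b _ => ?_
    unfold tv
    rw [if_neg h6, if_neg h6', hφ]
    simp only [he]
  rw [e1]
  refine h.trans (le_of_eq ?_)
  rw [hnorm]
  push_cast
  ring

/-- **the second moment** -/
theorem second (A : Finset (HeightOneSpectrum (𝓞 K))) (hA6 : ∀ v ∈ A, (6 : 𝓞 K) ∉ v.asIdeal)
    {Y X : ℕ} (hX : 1 ≤ X) (hAY : ∀ v ∈ A, nm v ≤ Y) (hY : cc ι * (Y : ℝ) ^ 4 ≤ X)
    {κ : ℝ} (hcard : (A.card : ℝ) * ((Y : ℝ) ^ 4 / X) ≤ κ) :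
    ∑ a ∈ box β X, ∑ b ∈ box β X, (∑ v ∈ A, tv v a b) ^ 2 ≤
      (4 + 12 * cc ι * κ) * ((box β X).card : ℝ) ^ 2 * ∑ v ∈ A, (nm v : ℝ) := by
  classical
  have hX0 : (0 : ℝ) < X := by exact_mod_cast hX
  have hcc := cc_pos (ι := ι)
  set G : HeightOneSpectrum (𝓞 K) → HeightOneSpectrum (𝓞 K) → ℝ := fun v w =>
    ∑ a ∈ box β X, ∑ b ∈ box β X, tv v a b * tv w a b with hG
  set m : ℝ := ((box β X).card : ℝ) ^ 2 with hm
  have hm0 : 0 ≤ m := by positivity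
  have e1 : ∑ a ∈ box β X, ∑ b ∈ box β X, (∑ v ∈ A, tv v a b) ^ 2 =
      ∑ v ∈ A, ∑ w ∈ A, G v w := by
    have h1 : ∀ a b : 𝓞 K, (∑ v ∈ A, tv v a b) ^ 2 =
        ∑ v ∈ A, ∑ w ∈ A, tv v a b * tv w a b := by
      intro a b
      rw [sq, sum_mul_sum]
    simp_rw [h1]
    rw [hG]
    calc ∑ a ∈ box β X, ∑ b ∈ box β X, ∑ v ∈ A, ∑ w ∈ A, tv v a b * tv w a b
        = ∑ a ∈ box β X, ∑ v ∈ A, ∑ b ∈ box β X, ∑ w ∈ A, tv v a b * tv w a b :=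
          sum_congr rfl fun a _ => sum_comm
      _ = ∑ v ∈ A, ∑ a ∈ box β X, ∑ b ∈ box β X, ∑ w ∈ A, tv v a b * tv w a b := sum_comm
      _ = ∑ v ∈ A, ∑ a ∈ box β X, ∑ w ∈ A, ∑ b ∈ box β X, tv v a b * tv w a b :=
          sum_congr rfl fun v _ => sum_congr rfl fun a _ => sum_comm
      _ = ∑ v ∈ A, ∑ w ∈ A, ∑ a ∈ box β X, ∑ b ∈ box β X, tv v a b * tv w a b :=
          sum_congr rfl fun v _ => sum_comm
  have hle : ∀ v ∈ A, ∀ w ∈ A, G v w ≤ (if w = v then 4 * m * nm v else 0) +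
      12 * cc ι * ((Y : ℝ) ^ 4 / X) * m * (Real.sqrt (nm v) * Real.sqrt (nm w)) := by
    intro v hv w hw
    have hvY : (nm v : ℝ) ≤ Y := by exact_mod_cast hAY v hv
    have hwY : (nm w : ℝ) ≤ Y := by exact_mod_cast hAY w hw
    have hv1 : (1 : ℝ) ≤ nm v := by exact_mod_cast nm_pos v
    have hY1 : (1 : ℝ) ≤ Y := hv1.trans hvY
    by_cases h : w = v
    · subst h
      rw [if_pos rfl]
      have h2 : cc ι * (nm w : ℝ) ^ 2 ≤ X := by
        refine le_trans ?_ hY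
        refine mul_le_mul_of_nonneg_left ?_ hcc.le
        calc (nm w : ℝ) ^ 2 ≤ (Y : ℝ) ^ 2 := by gcongr
          _ ≤ (Y : ℝ) ^ 4 := pow_le_pow_right₀ hY1 (by norm_num)
      have h3 := diag β (hA6 w hw) hX h2
      have h4 : 0 ≤ 12 * cc ι * ((Y : ℝ) ^ 4 / X) * m *
          (Real.sqrt (nm w) * Real.sqrt (nm w)) := by positivity
      linarith
    · rw [if_neg h, zero_add]
      have h2 : ((nm v : ℝ) * nm w) ^ 2 ≤ (Y : ℝ) ^ 4 := by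
        calc ((nm v : ℝ) * nm w) ^ 2 ≤ ((Y : ℝ) * Y) ^ 2 := by gcongr
          _ = (Y : ℝ) ^ 4 := by ring
      have h3 := off β (Ne.symm h) (hA6 v hv) (hA6 w hw) hX
        ((mul_le_mul_of_nonneg_left h2 hcc.le).trans hY)
      refine (le_abs_self _).trans (h3.trans ?_)
      calc 12 * cc ι * (((nm v : ℝ) * nm w) ^ 2 / X) * (Real.sqrt (nm v) * Real.sqrt (nm w)) * m
          ≤ 12 * cc ι * ((Y : ℝ) ^ 4 / X) * (Real.sqrt (nm v) * Real.sqrt (nm w)) * m := by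
            gcongr
        _ = _ := by ring
  rw [e1]
  refine (sum_le_sum fun v hv => sum_le_sum fun w hw => hle v hv w hw).trans ?_
  have h5 : ∑ v ∈ A, ∑ w ∈ A, ((if w = v then 4 * m * (nm v : ℝ) else 0) +
      12 * cc ι * ((Y : ℝ) ^ 4 / X) * m * (Real.sqrt (nm v) * Real.sqrt (nm w))) =
      4 * m * ∑ v ∈ A, (nm v : ℝ) +
        12 * cc ι * ((Y : ℝ) ^ 4 / X) * m * (∑ v ∈ A, Real.sqrt (nm v)) ^ 2 := by
    simp_rw [sum_add_distrib]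
    congr 1
    · rw [mul_sum]
      refine sum_congr rfl fun v hv => ?_
      rw [sum_ite_eq' A v, if_pos hv]
    · simp_rw [← mul_sum]
      rw [sq, sum_mul_sum]
      simp_rw [← mul_sum]
  rw [h5]
  have h6 : (∑ v ∈ A, Real.sqrt (nm v)) ^ 2 ≤ A.card * ∑ v ∈ A, (nm v : ℝ) := by
    refine (sq_sum_le_card_mul_sum_sq (s := A) (f := fun v => Real.sqrt (nm v))).trans ?_
    refine mul_le_mul_of_nonneg_left (le_of_eq ?_) (by positivity)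
    exact sum_congr rfl fun v _ => Real.sq_sqrt (by positivity)
  have h7 : 0 ≤ ∑ v ∈ A, (nm v : ℝ) := sum_nonneg fun v _ => by positivity
  calc 4 * m * ∑ v ∈ A, (nm v : ℝ) +
        12 * cc ι * ((Y : ℝ) ^ 4 / X) * m * (∑ v ∈ A, Real.sqrt (nm v)) ^ 2
      ≤ 4 * m * ∑ v ∈ A, (nm v : ℝ) +
        12 * cc ι * ((Y : ℝ) ^ 4 / X) * m * (A.card * ∑ v ∈ A, (nm v : ℝ)) := by gcongr
    _ = 4 * m * ∑ v ∈ A, (nm v : ℝ) +
        12 * cc ι * m * (A.card * ((Y : ℝ) ^ 4 / X)) * ∑ v ∈ A, (nm v : ℝ) := by ring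
    _ ≤ 4 * m * ∑ v ∈ A, (nm v : ℝ) + 12 * cc ι * m * κ * ∑ v ∈ A, (nm v : ℝ) := by gcongr
    _ = _ := by ring

end Pool.Agent.P8H18.AA
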