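import Pool.Agent.P8H18.AA.Bad
import Pool.Agent.P8H18.MF.LogGlob

/-! Partial summation: from sums of traces to the logarithms of partial Euler products. -/

set_option autoImplicit false
set_option linter.unusedSectionVars false

namespace Pool.Agent.P8H18.AA

open Finset NumberField IsDedekindDomain Pool.Agent.P8H18.MF
open Pool.Agent.H921R2.TatePole (nm two_le_nm nm_summable)
open Pool.Agent.H341R2 (card_v finite_v)

/-- second order expansion of the logarithm -/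
theorem log_two {r₀ : ℝ} (h0 : 0 < r₀) (h1 : r₀ < 1) {z : ℂ} (hz : ‖z‖ ≤ r₀) :
    ‖-Complex.log (1 - z) - z‖ ≤ (2 + (1 - r₀)⁻¹) * ‖z‖ ^ 2 := by
  have hz1 : ‖z‖ ≤ 1 := hz.trans h1.le
  have h := log_expand h1 hz
  have h4 : 0 ≤ (1 - r₀)⁻¹ := by
    rw [inv_nonneg]
    linarith
  have e : -Complex.log (1 - z) - z = (-Complex.log (1 - z) - (z + z ^ 2 / 2 + z ^ 3 / 3)) +
      (z ^ 2 / 2 + z ^ 3 / 3) := by ring
  rw [e]
  refine (norm_add_le _ _).trans ?_
  have h5 : ‖z ^ 2 / 2 + z ^ 3 / 3‖ ≤ 2 * ‖z‖ ^ 2 := by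
    refine (norm_add_le _ _).trans ?_
    have e2 : ‖z ^ 2 / 2‖ ≤ ‖z‖ ^ 2 := by
      rw [norm_div, norm_pow]
      simp only [Complex.norm_ofNat]
      nlinarith [sq_nonneg ‖z‖]
    have e3 : ‖z ^ 3 / 3‖ ≤ ‖z‖ ^ 2 := by
      rw [norm_div, norm_pow]
      simp only [Complex.norm_ofNat]
      have : ‖z‖ ^ 3 ≤ ‖z‖ ^ 2 := pow_le_pow_of_le_one (norm_nonneg _) hz1 (by norm_num)
      have := sq_nonneg ‖z‖
      linarith
    linarith
  have h6 : (1 - r₀)⁻¹ * ‖z‖ ^ 4 ≤ (1 - r₀)⁻¹ * ‖z‖ ^ 2 :=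
    mul_le_mul_of_nonneg_left (pow_le_pow_of_le_one (norm_nonneg _) hz1 (by norm_num)) h4
  linarith

section loc
variable {F : Type*} [Field F] [Fintype F] [DecidableEq F]

theorem ll_two (h6 : (6 : F) ≠ 0) (a b : F) {r₀ : ℝ} (h0 : 0 < r₀) (h1 : r₀ < 1) {X : ℂ}
    (hX : sz F X ≤ r₀) : ‖ll a b X - (tr a b : ℂ) * X‖ ≤ 2 * (2 + (1 - r₀)⁻¹) * sz F X ^ 2 := by
  have hz := z_le h6 a b X
  have hw := w_le h6 a b X
  have e1 := log_two h0 h1 (hz.trans hX)
  have e2 := log_two h0 h1 (hw.trans hX)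
  have h4 : 0 ≤ 2 + (1 - r₀)⁻¹ := by
    have : 0 ≤ (1 - r₀)⁻¹ := by
      rw [inv_nonneg]
      linarith
    linarith
  have e : ll a b X - (tr a b : ℂ) * X = (-Complex.log (1 - r1 a b * X) - r1 a b * X) +
      (-Complex.log (1 - r2 a b * X) - r2 a b * X) := by
    rw [ll_eq h6 a b (hX.trans_lt h1), ← r_add a b]
    ring
  rw [e]
  refine (norm_add_le _ _).trans ?_
  have e3 : ‖r1 a b * X‖ ^ 2 ≤ sz F X ^ 2 := pow_le_pow_left₀ (norm_nonneg _) hz 2
  have e4 : ‖r2 a b * X‖ ^ 2 ≤ sz F X ^ 2 := pow_le_pow_left₀ (norm_nonneg _) hw 2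
  have e5 := mul_le_mul_of_nonneg_left e3 h4
  have e6 := mul_le_mul_of_nonneg_left e4 h4
  linarith

end loc

/-- differences of powers -/
theorem pow_diff {m : ℕ} (hm : 1 ≤ m) (s : ℂ) (hs : 0 ≤ s.re) :
    ‖((m : ℂ) ^ (-s)) - ((m + 1 : ℕ) : ℂ) ^ (-s)‖ ≤ ‖s‖ * (m : ℝ) ^ (-s.re - 1) := by
  have hm0 : (0 : ℝ) < m := by exact_mod_cast hm
  by_cases h0 : s = 0
  · simp [h0]
  have h := norm_image_sub_le_of_norm_deriv_le_segment' (f := fun x : ℝ => (x : ℂ) ^ (-s))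
    (f' := fun x : ℝ => (-s) * (x : ℂ) ^ (-s - 1)) (a := (m : ℝ)) (b := (m : ℝ) + 1)
    (C := ‖s‖ * (m : ℝ) ^ (-s.re - 1)) (fun x hx => by
      have hx0 : 0 < x := lt_of_lt_of_le hm0 hx.1
      exact (hasDerivAt_ofReal_cpow_const hx0.ne' (neg_ne_zero.2 h0)).hasDerivWithinAt)
    (fun x hx => by
      have hx0 : 0 < x := lt_of_lt_of_le hm0 hx.1
      rw [norm_mul, norm_neg, Complex.norm_cpow_eq_rpow_re_of_pos hx0]
      refine mul_le_mul_of_nonneg_left ?_ (norm_nonneg _)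
      have e : (-s - 1).re = -s.re - 1 := by simp
      rw [e]
      exact Real.rpow_le_rpow_of_nonpos hm0 hx.1 (by linarith)) ((m : ℝ) + 1)
    ⟨by linarith, le_rfl⟩
  simp only [add_sub_cancel_left, mul_one] at h
  rw [norm_sub_rev] at h
  push_cast at h ⊢
  exact h

theorem log_sq_le {ε : ℝ} (hε : 0 < ε) {x : ℝ} (hx : 1 ≤ x) :
    (1 + Real.log x) ^ 2 ≤ (1 + 2 / ε) ^ 2 * x ^ ε := by
  have hx0 : 0 ≤ x := by linarith
  have h1 := Real.log_le_rpow_div hx0 (half_pos hε)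
  have h2 : 1 ≤ x ^ (ε / 2) := Real.one_le_rpow hx (by linarith)
  have h3 : 0 ≤ Real.log x := Real.log_nonneg hx
  have h4 : 1 + Real.log x ≤ (1 + 2 / ε) * x ^ (ε / 2) := by
    have : x ^ (ε / 2) / (ε / 2) = 2 / ε * x ^ (ε / 2) := by
      field_simp
    rw [this] at h1
    linarith
  calc (1 + Real.log x) ^ 2 ≤ ((1 + 2 / ε) * x ^ (ε / 2)) ^ 2 := by gcongr
    _ = (1 + 2 / ε) ^ 2 * (x ^ (ε / 2) * x ^ (ε / 2)) := by ring
    _ = (1 + 2 / ε) ^ 2 * x ^ ε := by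
        rw [← Real.rpow_add (by linarith), add_halves]

variable {K : Type} [Field K] [NumberField K]

/-- the primes with `M < N v ≤ M'` -/
noncomputable def Bk (K : Type) [Field K] [NumberField K] (M M' : ℕ) :
    Finset (HeightOneSpectrum (𝓞 K)) := by
  classical
  exact Pr K (M' + 1) \ Pr K (M + 1)

theorem mem_Bk {M M' : ℕ} {v : HeightOneSpectrum (𝓞 K)} :
    v ∈ Bk K M M' ↔ (M < nm v ∧ nm v ≤ M') ∧ (6 : 𝓞 K) ∉ v.asIdeal := by
  classical
  unfold Bk
  rw [mem_sdiff, mem_Pr, mem_Pr]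
  constructor
  · rintro ⟨⟨h1, h2⟩, h3⟩
    push Not at h3
    refine ⟨⟨?_, by omega⟩, h2⟩
    by_contra h4
    exact h2 (h3 (by omega))
  · rintro ⟨⟨h1, h2⟩, h3⟩
    exact ⟨⟨by omega, h3⟩, fun h4 => by omega⟩

theorem sum_Bk (a b : 𝓞 K) {M M' : ℕ} (h : M ≤ M') :
    ∑ v ∈ Bk K M M', tv v a b = TT a b (M' + 1) - TT a b (M + 1) := by
  classical
  unfold Bk TT
  rw [← sum_sdiff (Pr_mono (K := K) (by omega : M + 1 ≤ M' + 1)), add_sub_cancel_right]

/-- **Abel summation** -/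
theorem abel (a b : 𝓞 K) (s : ℂ) {M M' : ℕ} (h : M ≤ M') :
    ∑ v ∈ Bk K M M', (tv v a b : ℂ) * xv v s =
      ((TT a b (M' + 1) - TT a b (M + 1) : ℝ) : ℂ) * (M' : ℂ) ^ (-s) +
      ∑ m ∈ Ico (M + 1) M', ((TT a b (m + 1) - TT a b (M + 1) : ℝ) : ℂ) *
        ((m : ℂ) ^ (-s) - ((m + 1 : ℕ) : ℂ) ^ (-s)) := by
  classical
  induction M', h using Nat.le_induction with
  | base =>
    have : Bk K M M = ∅ := by
      ext v
      rw [mem_Bk]
      simp only [notMem_empty, iff_false, not_and]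
      intro h1
      omega
    rw [this, sub_self]
    simp
  | succ n hn ih =>
    have e1 : Bk K M (n + 1) = Bk K M n ∪ Bk K n (n + 1) := by
      ext v
      rw [mem_union, mem_Bk, mem_Bk, mem_Bk]
      constructor
      · rintro ⟨⟨h1, h2⟩, h3⟩
        by_cases h4 : nm v ≤ n
        · exact Or.inl ⟨⟨h1, h4⟩, h3⟩
        · exact Or.inr ⟨⟨by omega, h2⟩, h3⟩
      · rintro (⟨⟨h1, h2⟩, h3⟩ | ⟨⟨h1, h2⟩, h3⟩)
        · exact ⟨⟨h1, by omega⟩, h3⟩
        · exact ⟨⟨by omega, h2⟩, h3⟩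
    have e2 : Disjoint (Bk K M n) (Bk K n (n + 1)) := by
      rw [disjoint_left]
      intro v h1 h2
      rw [mem_Bk] at h1 h2
      omega
    rw [e1, sum_union e2, ih]
    have e3 : ∑ v ∈ Bk K n (n + 1), (tv v a b : ℂ) * xv v s =
        ((TT a b (n + 1 + 1) - TT a b (n + 1) : ℝ) : ℂ) * ((n + 1 : ℕ) : ℂ) ^ (-s) := by
      rw [← sum_Bk a b (Nat.le_succ n)]
      push_cast
      rw [sum_mul]
      refine sum_congr rfl fun v hv => ?_
      rw [mem_Bk] at hv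
      have : nm v = n + 1 := by omega
      unfold xv
      rw [this]
      push_cast
      rfl
    rw [e3]
    rcases Nat.lt_or_ge n (M + 1) with h4 | h4
    · have h5 : n = M := by omega
      subst h5
      rw [Ico_eq_empty (by omega), Ico_eq_empty (by omega)]
      push_cast
      simp
    · rw [sum_Ico_succ_top h4]
      push_cast
      ring

/-- **the logarithms of partial Euler products** -/
theorem log_sum_bound {σ₀ : ℝ} (hσ : 1 < σ₀) : ∃ D : ℝ, 0 ≤ D ∧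
    ∀ (a b : 𝓞 K) (L : ℝ), 0 ≤ L → ∀ (s : ℂ), σ₀ ≤ s.re → ∀ (y : ℝ) (M M' : ℕ), 1 ≤ y →
      y < M + 1 → 1 ≤ M → M ≤ M' →
      (∀ m : ℕ, 1 ≤ m → m ≤ M' → |TT a b (m + 1)| ≤ L * m * (1 + Real.log m) ^ 2) →
      ‖∑ v ∈ Bk K M M', lv s v a b‖ ≤ D * (1 + L) * (1 + ‖s‖) * y ^ (-((σ₀ - 1) / 2)) := by
  classical
  set ε : ℝ := (σ₀ - 1) / 4 with hε
  have hε0 : 0 < ε := by rw [hε]; linarith
  set Cε : ℝ := (1 + 2 / ε) ^ 2 with hCε
  have hCε0 : 0 ≤ Cε := by positivity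
  have hsum : Summable fun m : ℕ => (m : ℝ) ^ (-1 - ε) := Real.summable_nat_rpow.2 (by linarith)
  set Z : ℝ := ∑' m : ℕ, (m : ℝ) ^ (-1 - ε) with hZ
  have hZ0 : 0 ≤ Z := tsum_nonneg fun m => by positivity
  have hsum2 : Summable fun v : HeightOneSpectrum (𝓞 K) => (nm v : ℝ) ^ (-σ₀) :=
    nm_summable' (by linarith)
  set Z' : ℝ := ∑' v : HeightOneSpectrum (𝓞 K), (nm v : ℝ) ^ (-σ₀) with hZ'
  have hZ'0 : 0 ≤ Z' := tsum_nonneg fun m => by positivity
  obtain ⟨hy0, hy1⟩ := y₀_bounds (σ := σ₀) (by linarith)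
  set r₀ : ℝ := (2 : ℝ) ^ (1 / 2 - σ₀) with hr₀
  set E : ℝ := 2 * (2 + (1 - r₀)⁻¹) with hE
  have hE0 : 0 ≤ E := by
    have : 0 ≤ (1 - r₀)⁻¹ := by
      rw [inv_nonneg]
      linarith
    rw [hE]
    linarith
  refine ⟨2 * Cε * (1 + Z) + E * Z', by positivity, fun a b L hL s hs y M M' hy hyM hM hMM' hT => ?_⟩
  have hy0' : 0 < y := by linarith
  set w : ℝ := y ^ (-((σ₀ - 1) / 2)) with hw
  have hw0 : 0 ≤ w := by positivity
  -- powers of large numbers
  have hpow : ∀ x : ℝ, y ≤ x → x ^ (-((σ₀ - 1) / 2)) ≤ w := fun x hx =>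
    Real.rpow_le_rpow_of_nonpos hy0' hx (by linarith)
  -- the first order terms
  have hU : ∀ m : ℕ, M ≤ m → m ≤ M' → |TT a b (m + 1) - TT a b (M + 1)| ≤
      2 * L * Cε * (m : ℝ) ^ (1 + ε) := by
    intro m h1 h2
    have hm1 : (1 : ℝ) ≤ m := by exact_mod_cast hM.trans h1
    have hM1 : (1 : ℝ) ≤ M := by exact_mod_cast hM
    have hMm : (M : ℝ) ≤ m := by exact_mod_cast h1
    have k1 := hT m (hM.trans h1) h2
    have k2 := hT M hM (h1.trans h2)
    have hlog : Real.log M ≤ Real.log m := Real.log_le_log (by linarith) hMm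
    have hlog0 : 0 ≤ Real.log M := Real.log_nonneg hM1
    have k3 : L * M * (1 + Real.log M) ^ 2 ≤ L * m * (1 + Real.log m) ^ 2 := by gcongr
    have k4 : L * m * (1 + Real.log m) ^ 2 ≤ L * Cε * (m : ℝ) ^ (1 + ε) := by
      have k5 := log_sq_le hε0 hm1
      calc L * m * (1 + Real.log m) ^ 2 ≤ L * m * (Cε * (m : ℝ) ^ ε) := by gcongr
        _ = L * Cε * ((m : ℝ) ^ (1 : ℝ) * (m : ℝ) ^ ε) := by rw [Real.rpow_one]; ring
        _ = L * Cε * (m : ℝ) ^ (1 + ε) := by rw [← Real.rpow_add (by linarith)]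
    have k6 := abs_sub (TT a b (m + 1)) (TT a b (M + 1))
    linarith
  have h1 : ‖∑ v ∈ Bk K M M', (tv v a b : ℂ) * xv v s‖ ≤
      2 * L * Cε * (1 + Z) * (1 + ‖s‖) * w := by
    rcases Nat.eq_or_lt_of_le hMM' with h | hlt
    · have : Bk K M M' = ∅ := by
        ext v
        rw [mem_Bk]
        simp only [notMem_empty, iff_false, not_and]
        intro h1
        omega
      rw [this, sum_empty, norm_zero]
      positivity
    · rw [abel a b s hMM']
      refine (norm_add_le _ _).trans ?_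
      have hM'1 : (1 : ℝ) ≤ M' := by exact_mod_cast hM.trans hMM'
      have hM'0 : (0 : ℝ) < M' := by linarith
      have hyM' : y ≤ M' := by
        have : (M : ℝ) + 1 ≤ M' := by exact_mod_cast hlt
        linarith
      have t1 : ‖((TT a b (M' + 1) - TT a b (M + 1) : ℝ) : ℂ) * (M' : ℂ) ^ (-s)‖ ≤
          2 * L * Cε * w := by
        rw [norm_mul, Complex.norm_real, Real.norm_eq_abs]
        have e1 : ‖(M' : ℂ) ^ (-s)‖ = (M' : ℝ) ^ (-s.re) := by
          rw [Complex.norm_natCast_cpow_of_pos (by omega), Complex.neg_re]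
        rw [e1]
        calc |TT a b (M' + 1) - TT a b (M + 1)| * (M' : ℝ) ^ (-s.re)
            ≤ (2 * L * Cε * (M' : ℝ) ^ (1 + ε)) * (M' : ℝ) ^ (-s.re) := by
              gcongr
              exact hU M' hMM' le_rfl
          _ = 2 * L * Cε * (M' : ℝ) ^ (1 + ε - s.re) := by
              rw [mul_assoc, ← Real.rpow_add hM'0, sub_eq_add_neg]
          _ ≤ 2 * L * Cε * (M' : ℝ) ^ (-((σ₀ - 1) / 2)) :=
              mul_le_mul_of_nonneg_left (Real.rpow_le_rpow_of_exponent_le hM'1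
                (by rw [hε]; linarith)) (by positivity)
          _ ≤ 2 * L * Cε * w := by
              gcongr
              exact hpow _ hyM'
      have t2 : ‖∑ m ∈ Ico (M + 1) M', ((TT a b (m + 1) - TT a b (M + 1) : ℝ) : ℂ) *
          ((m : ℂ) ^ (-s) - ((m + 1 : ℕ) : ℂ) ^ (-s))‖ ≤ 2 * L * Cε * Z * ‖s‖ * w := by
        have t3 : ∀ m ∈ Ico (M + 1) M', ‖((TT a b (m + 1) - TT a b (M + 1) : ℝ) : ℂ) *
            ((m : ℂ) ^ (-s) - ((m + 1 : ℕ) : ℂ) ^ (-s))‖ ≤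
            2 * L * Cε * ‖s‖ * w * (m : ℝ) ^ (-1 - ε) := by
          intro m hm
          rw [mem_Ico] at hm
          have hm1 : (1 : ℝ) ≤ m := by exact_mod_cast (by omega : 1 ≤ m)
          have hm0 : (0 : ℝ) < m := by linarith
          have hym : y ≤ m := by
            have : (M : ℝ) + 1 ≤ m := by exact_mod_cast hm.1
            linarith
          rw [norm_mul, Complex.norm_real, Real.norm_eq_abs]
          calc |TT a b (m + 1) - TT a b (M + 1)| *
                ‖(m : ℂ) ^ (-s) - ((m + 1 : ℕ) : ℂ) ^ (-s)‖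
              ≤ (2 * L * Cε * (m : ℝ) ^ (1 + ε)) * (‖s‖ * (m : ℝ) ^ (-s.re - 1)) := by
                gcongr
                · exact hU m (by omega) hm.2.le
                · exact pow_diff (by omega) s (by linarith)
            _ = 2 * L * Cε * ‖s‖ * ((m : ℝ) ^ (1 + ε) * (m : ℝ) ^ (-s.re - 1)) := by ring
            _ = 2 * L * Cε * ‖s‖ * (m : ℝ) ^ (1 + ε + (-s.re - 1)) := by
                rw [← Real.rpow_add hm0]
            _ ≤ 2 * L * Cε * ‖s‖ * (m : ℝ) ^ (-((σ₀ - 1) / 2) + (-1 - ε)) :=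
                mul_le_mul_of_nonneg_left (Real.rpow_le_rpow_of_exponent_le hm1
                  (by rw [hε]; linarith)) (by positivity)
            _ = 2 * L * Cε * ‖s‖ * ((m : ℝ) ^ (-((σ₀ - 1) / 2)) * (m : ℝ) ^ (-1 - ε)) := by
                rw [← Real.rpow_add hm0]
            _ ≤ 2 * L * Cε * ‖s‖ * (w * (m : ℝ) ^ (-1 - ε)) := by
                gcongr
                exact hpow _ hym
            _ = _ := by ring
        refine (norm_sum_le _ _).trans ((sum_le_sum t3).trans ?_)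
        rw [← mul_sum]
        have t4 : ∑ m ∈ Ico (M + 1) M', (m : ℝ) ^ (-1 - ε) ≤ Z :=
          hsum.sum_le_tsum _ fun m _ => by positivity
        calc 2 * L * Cε * ‖s‖ * w * ∑ m ∈ Ico (M + 1) M', (m : ℝ) ^ (-1 - ε)
            ≤ 2 * L * Cε * ‖s‖ * w * Z := by gcongr
          _ = _ := by ring
      have t5 : 0 ≤ 2 * L * Cε * Z * w := by positivity
      have t6 : 0 ≤ 2 * L * Cε * ‖s‖ * w := by positivity
      nlinarith
  -- the second order terms
  have h2 : ‖∑ v ∈ Bk K M M', (lv s v a b - (tv v a b : ℂ) * xv v s)‖ ≤ E * Z' * w := by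
    have t3 : ∀ v ∈ Bk K M M', ‖lv s v a b - (tv v a b : ℂ) * xv v s‖ ≤
        E * w * (nm v : ℝ) ^ (-σ₀) := by
      intro v hv
      rw [mem_Bk] at hv
      obtain ⟨⟨hv1, hv2⟩, h6⟩ := hv
      have hq0 : (0 : ℝ) < nm v := by exact_mod_cast nm_pos v
      have hq1 : (1 : ℝ) ≤ nm v := by exact_mod_cast nm_pos v
      have hyq : y ≤ nm v := by
        have : (M : ℝ) + 1 ≤ nm v := by exact_mod_cast hv1
        linarith
      have hsz := (sz_le v hs).trans (pow_le_two v (by linarith : 1 / 2 < σ₀))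
      have k1 := ll_two (six_ne h6) (Ideal.Quotient.mk v.asIdeal a)
        (Ideal.Quotient.mk v.asIdeal b) hy0 hy1 hsz
      have e1 : lv s v a b - (tv v a b : ℂ) * xv v s =
          ll (Ideal.Quotient.mk v.asIdeal a) (Ideal.Quotient.mk v.asIdeal b) (xv v s) -
            (tr (Ideal.Quotient.mk v.asIdeal a) (Ideal.Quotient.mk v.asIdeal b) : ℂ) *
              xv v s := by
        unfold lv tv
        rw [if_neg h6, if_neg h6]
        push_cast
        rfl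
      rw [e1]
      refine k1.trans ?_
      have k2 : sz (𝓞 K ⧸ v.asIdeal) (xv v s) ^ 2 ≤ (nm v : ℝ) ^ (1 - 2 * σ₀) := by
        calc sz (𝓞 K ⧸ v.asIdeal) (xv v s) ^ 2 ≤ ((nm v : ℝ) ^ (1 / 2 - σ₀)) ^ 2 := by
              refine pow_le_pow_left₀ ?_ (sz_le v hs) 2
              unfold sz
              positivity
          _ = (nm v : ℝ) ^ (1 - 2 * σ₀) := by
              rw [← Real.rpow_natCast, ← Real.rpow_mul hq0.le]
              congr 1
              push_cast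
              ring
      calc 2 * (2 + (1 - r₀)⁻¹) * sz (𝓞 K ⧸ v.asIdeal) (xv v s) ^ 2
          ≤ E * (nm v : ℝ) ^ (1 - 2 * σ₀) := by
            rw [← hE]
            gcongr
        _ ≤ E * (nm v : ℝ) ^ (-((σ₀ - 1) / 2) + -σ₀) :=
            mul_le_mul_of_nonneg_left (Real.rpow_le_rpow_of_exponent_le hq1
              (by linarith)) (by positivity)
        _ = E * ((nm v : ℝ) ^ (-((σ₀ - 1) / 2)) * (nm v : ℝ) ^ (-σ₀)) := by
            rw [← Real.rpow_add hq0]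
        _ ≤ E * (w * (nm v : ℝ) ^ (-σ₀)) := by
            gcongr
            exact hpow _ hyq
        _ = _ := by ring
    refine (norm_sum_le _ _).trans ((sum_le_sum t3).trans ?_)
    rw [← mul_sum]
    have t4 : ∑ v ∈ Bk K M M', (nm v : ℝ) ^ (-σ₀) ≤ Z' :=
      hsum2.sum_le_tsum _ fun m _ => by positivity
    calc E * w * ∑ v ∈ Bk K M M', (nm v : ℝ) ^ (-σ₀) ≤ E * w * Z' := by gcongr
      _ = _ := by ring
  have h3 : ∑ v ∈ Bk K M M', lv s v a b = ∑ v ∈ Bk K M M', (tv v a b : ℂ) * xv v s +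
      ∑ v ∈ Bk K M M', (lv s v a b - (tv v a b : ℂ) * xv v s) := by
    rw [← sum_add_distrib]
    exact sum_congr rfl fun v _ => by ring
  rw [h3]
  refine (norm_add_le _ _).trans ((add_le_add h1 h2).trans ?_)
  have g1 : 0 ≤ Cε * (1 + Z) * w * (1 + ‖s‖) := by positivity
  have g2 : 0 ≤ E * Z' * w := by positivity
  have g3 : 0 ≤ ‖s‖ := norm_nonneg s
  have g4 : 0 ≤ E * Z' * w * ‖s‖ := by positivity
  have g5 : 0 ≤ E * Z' * w * L := by positivity
  have g6 : 0 ≤ E * Z' * w * L * ‖s‖ := by positivity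
  have g7 : 0 ≤ L * (Cε * (1 + Z) * w * (1 + ‖s‖)) := by positivity
  nlinarith

end Pool.Agent.P8H18.AA
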